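import Pool.Agent.Work.MP_a793bb_nt.RadK.DefsK

/-!
# Definitions for the bound `hh t ≤ exp (C ℓ ^ 2)`

Let `t ≠ 0, 1`, `Rs (Ip t) ≤ ℓ` and `u = 1 - t`. By the pigeonhole principle (`PairP`) there are
`h ≤ H` and `w = x / y` such that `u ^ h` is nearly `w ^ N` and `w` is close to `1` at a place
where `u` is very close to `1`. With `n = N / h` (natural division) the main lemmas `main_fin`,
`main_inf` of `RadK`, applied to `τ = u`, `ξ = w⁻¹`, give a contradiction if `hh t` is large.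
-/

set_option autoImplicit false

namespace AbcRadK

open Finset AbcRad Pool.Agent.Work.MP_a793bb_nt Pool.Agent.Work.MP_a793bb_nt.BPlus NumberField
  IsDedekindDomain Height

/-- The pigeonhole statement: among the approximate `N`-th roots of `u ^ 0, ..., u ^ H` two have the
same label and the same class `cl`. -/
def PairP (K : Type*) [Field K] [NumberField K] (C : ℝ) : Prop :=
  ∀ (u : K) (ℓ κ : ℝ) (N H : ℕ) (cl : K → ℤ × ℤ) (T : Finset (ℤ × ℤ)), u ≠ 0 → 1 ≤ ℓ →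
    lsum (supp u) ≤ ℓ → 0 < κ → κ ≤ 1 → 1 ≤ N → H ≤ N →
    (∀ x : K, x ≠ 0 → (∀ v : InfinitePlace K,
      |Real.log (v x)| ≤ |Real.log (v u)| + C + ℓ) → cl x ∈ T) →
    C * (5 / κ) ^ (2 * ℓ) * (7 * (C + ℓ) / κ) ^ (Module.finrank ℚ K) * (T.card : ℝ) ≤ (H : ℝ) →
    ∃ (h : ℕ) (x y : K), 1 ≤ h ∧ h ≤ H ∧ x ≠ 0 ∧ y ≠ 0 ∧ cl x = cl y ∧
      (∀ p, p ∉ supp u → kp p x = kp p y) ∧
      (∀ p, |(h : ℝ) * (kp p u : ℝ) - N * ((kp p x : ℝ) - (kp p y : ℝ))| ≤ κ * N) ∧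
      (∀ v : InfinitePlace K,
        |(h : ℝ) * Real.log (v u) - N * (Real.log (v x) - Real.log (v y))| ≤ κ * N)

/-- Conditions on the parameters (`d` is the degree, `C` the constant of `PairP`). -/
structure Num (d : ℕ) (C ℓ q : ℝ) (N H : ℕ) : Prop where
  hH1 : 1 ≤ H
  hHN : H ≤ N
  hq : 8 * d ≤ q
  hN : (N : ℝ) ≤ q / (30000 * d ^ 2 * ℓ)
  hn : ∀ h : ℕ, 1 ≤ h → h ≤ H →
    2 * ((⌈864 * ℓ⌉₊ : ℝ) + 2304 * d) * (√(2 * q) + 9) ≤ ((N / h : ℕ) : ℝ)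
  hfin : C * (5 * (ℓ + d)) ^ (2 * ℓ) * (7 * (C + ℓ) * (ℓ + d)) ^ d *
    (2 * Real.exp (637505 * d * ℓ)) ≤ (H : ℝ)
  hinf : C * (5 * (ℓ + d)) ^ (2 * ℓ) * (7 * (C + ℓ) * (ℓ + d)) ^ d *
    (385 * Real.exp (6782976 * d ^ 2) * (C + ℓ + 1)) ≤ (H : ℝ)

end AbcRadK
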