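import Mathlib

/-!
# The parameters `I, J` for an infinite place

Proof. Let `J0 = 2304 d`, `μ = 3391488 d ^ 2 = 1472 d J0`, `L = ⌊q / (4 d μ)⌋₊`, `J = n / J0`,
`I = L / J` (natural divisions). From `2 J0 (√(2 q) + 9) ≤ n ≤ N ≤ q / (30000 d ^ 2)` (`ℓ ≥ 1`):
`√q ≥ 10 ^ 8 d ^ 3`, so `q` is very large. `J ≥ 8`, `J + 1 > 2 (√(2 q) + 9)`. `I J ≤ L`, so
`I J μ ≤ q / (4 d)`. `2 J ≤ 2 N / J0 ≤ q / (34560000 d ^ 3) ≤ q / (13565952 d ^ 3) - 1 ≤ L`
(`4 d μ = 13565952 d ^ 3`), so `I ≥ 2` and `I J > L - J ≥ L / 2`, hence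
`I J μ ≥ L μ / 2 ≥ (q / (4 d) - μ) / 2 ≥ q / (9 d)`. `n < J0 (J + 1) ≤ 2 J0 J`, so
`n I ≤ 2 J0 I J ≤ 2 J0 L ≤ J0 q / (2 d μ) = q / (2944 d ^ 2)`. `I ≤ J` as `I J ≤ L ≤ q ≤ J ^ 2`.
`2 * 12 d (log (n I) + n I log 2) + 2 I (2 n) ≤ 44.8 d n I ≤ 0.0153 q / d`, and
`2 (I + J) 9 q / n ≤ 36 q J / n ≤ 36 q / J0 = q / (64 d)`. The sum is less than `q / (9 d)`.
-/

set_option autoImplicit false

namespace AbcRadK

theorem inf_params (d : ℕ) (hd : 1 ≤ d) (ℓ q : ℝ) (hℓ : 1 ≤ ℓ) (hq : 0 < q) (n N : ℕ)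
    (hnN : n ≤ N) (hN : (N : ℝ) ≤ q / (30000 * d ^ 2 * ℓ))
    (hn : 2 * ((⌈864 * ℓ⌉₊ : ℝ) + 2304 * d) * (√(2 * q) + 9) ≤ (n : ℝ)) :
    ∃ I J : ℕ, 8 ≤ J ∧ J ≤ n ∧ 2 ≤ I ∧ (I * J : ℕ) * (3391488 * (d : ℝ) ^ 2) ≤ q / (4 * d) ∧
      2 * (12 * d * (Real.log ((n * I : ℕ) : ℝ) + (n * I : ℕ) * Real.log 2) +
        I * (2 * n + 9 * q / n) + J * (9 * q / n)) < (I * J : ℕ) * (3391488 * (d : ℝ) ^ 2) := by
  have hd1 : (1 : ℝ) ≤ d := by exact_mod_cast hd
  have hd0 : (0 : ℝ) < d := by linarith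
  obtain ⟨J0, hJ0⟩ : ∃ J0 : ℕ, J0 = 2304 * d := ⟨_, rfl⟩
  have hJ0R : (J0 : ℝ) = 2304 * d := by
    rw [hJ0]
    push_cast
    ring
  have hJ00 : (0 : ℝ) < J0 := by rw [hJ0R]; positivity
  have hJN : 0 < J0 := by exact_mod_cast hJ00
  obtain ⟨μ, hμ⟩ : ∃ μ : ℝ, μ = 3391488 * (d : ℝ) ^ 2 := ⟨_, rfl⟩
  have hμ0 : 0 < μ := by rw [hμ]; positivity
  have hμJ : μ = 1472 * d * J0 := by
    rw [hμ, hJ0R]
    ring
  rw [← hμ]
  have hsq0 : 0 ≤ √(2 * q) := Real.sqrt_nonneg _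
  have hsq : √(2 * q) ^ 2 = 2 * q := Real.sq_sqrt (by linarith)
  have hn2 : 2 * (J0 : ℝ) * (√(2 * q) + 9) ≤ n := by
    refine le_trans ?_ hn
    rw [hJ0R]
    have h1 : 0 ≤ 2 * ((⌈864 * ℓ⌉₊ : ℝ)) * (√(2 * q) + 9) := by positivity
    linarith
  have hn0 : (0 : ℝ) < n := by
    have : 0 < 2 * (J0 : ℝ) * (√(2 * q) + 9) := by positivity
    linarith
  have hnNR : (n : ℝ) ≤ N := by exact_mod_cast hnN
  have hNq : (n : ℝ) * (30000 * d ^ 2) ≤ q := by
    have h1 : (N : ℝ) * (30000 * d ^ 2 * ℓ) ≤ q := by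
      rwa [le_div_iff₀ (by positivity)] at hN
    have h2 : (n : ℝ) * (30000 * d ^ 2) ≤ N * (30000 * d ^ 2) :=
      mul_le_mul_of_nonneg_right hnNR (by positivity)
    have h3 : (N : ℝ) * (30000 * d ^ 2) ≤ N * (30000 * d ^ 2) * ℓ :=
      le_mul_of_one_le_right (by positivity) hℓ
    linarith
  -- q is large
  have hqbig : 122093568 * (d : ℝ) ^ 3 ≤ q := by
    have h1 : 2 * (J0 : ℝ) * (√(2 * q) + 9) * (30000 * d ^ 2) ≤ q :=
      (mul_le_mul_of_nonneg_right hn2 (by positivity)).trans hNq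
    have h2 : 2 * (J0 : ℝ) * 9 * (30000 * d ^ 2) ≤ q := by
      refine le_trans ?_ h1
      have : 0 ≤ 2 * (J0 : ℝ) * √(2 * q) * (30000 * d ^ 2) := by positivity
      linarith
    rw [hJ0R] at h2
    have h3 : (0 : ℝ) < (d : ℝ) ^ 3 := by positivity
    nlinarith
  -- L
  obtain ⟨L, hL⟩ : ∃ L : ℕ, L = ⌊q / (4 * d * μ)⌋₊ := ⟨_, rfl⟩
  have hLle : (L : ℝ) * (4 * d * μ) ≤ q := by
    have := Nat.floor_le (show 0 ≤ q / (4 * d * μ) by positivity)
    rw [← hL, le_div_iff₀ (by positivity)] at this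
    exact this
  have hLgt : q < (L + 1) * (4 * d * μ) := by
    have := Nat.lt_floor_add_one (q / (4 * d * μ))
    rw [← hL, div_lt_iff₀ (by positivity)] at this
    exact this
  -- J
  obtain ⟨J, hJ⟩ : ∃ J : ℕ, J = n / J0 := ⟨_, rfl⟩
  have hJle : (J : ℝ) * J0 ≤ n := by
    have : J * J0 ≤ n := by rw [hJ]; exact Nat.div_mul_le_self _ _
    exact_mod_cast this
  have hJgt : (n : ℝ) < (J + 1) * J0 := by
    have : n < (J + 1) * J0 := by
      rw [hJ, add_mul, one_mul]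
      exact Nat.lt_div_mul_add hJN
    exact_mod_cast this
  have hJbig : 2 * √(2 * q) + 17 < J := by
    have h1 : 2 * (J0 : ℝ) * (√(2 * q) + 9) < (J + 1) * J0 := lt_of_le_of_lt hn2 hJgt
    have h2 : (2 * (√(2 * q) + 9)) * J0 < (J + 1) * J0 := by linarith
    have h3 := lt_of_mul_lt_mul_right h2 hJ00.le
    linarith
  have hJ17 : (17 : ℝ) < J := by linarith
  have hJnat : 17 < J := by exact_mod_cast hJ17
  have hJpos : (0 : ℝ) < J := by linarith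
  have hn2J : (n : ℝ) ≤ 2 * J0 * J := by nlinarith
  have hJn : J ≤ n := by
    rw [hJ]
    exact Nat.div_le_self _ _
  have h2J : 2 * (J : ℝ) ≤ L := by
    have h1 : (J : ℝ) * J0 * (30000 * d ^ 2) ≤ q :=
      (mul_le_mul_of_nonneg_right hJle (by positivity)).trans hNq
    rw [hJ0R] at h1
    have h2 : (J : ℝ) * (69120000 * d ^ 3) ≤ q := by linarith
    by_contra hcon
    rw [not_le] at hcon
    have h3 : q < (2 * J + 1) * (4 * d * μ) := by
      refine lt_of_lt_of_le hLgt ?_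
      exact mul_le_mul_of_nonneg_right (by linarith) (by positivity)
    rw [hμ] at h3
    have h4 : (0 : ℝ) < (d : ℝ) ^ 3 := by positivity
    have h5 : (0 : ℝ) < J * (d : ℝ) ^ 3 := by positivity
    have h6 : (17 : ℝ) * (d : ℝ) ^ 3 ≤ J * (d : ℝ) ^ 3 :=
      mul_le_mul_of_nonneg_right hJ17.le h4.le
    nlinarith
  have hJ0' : 0 < J := by omega
  obtain ⟨I, hI⟩ : ∃ I : ℕ, I = L / J := ⟨_, rfl⟩
  have hI2 : 2 ≤ I := by
    rw [hI, Nat.le_div_iff_mul_le hJ0']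
    exact_mod_cast h2J
  have hIle : (I : ℝ) * J ≤ L := by
    have : I * J ≤ L := by rw [hI]; exact Nat.div_mul_le_self _ _
    exact_mod_cast this
  have hIgt : (L : ℝ) < (I + 1) * J := by
    have : L < (I + 1) * J := by
      rw [hI, add_mul, one_mul]
      exact Nat.lt_div_mul_add hJ0'
    exact_mod_cast this
  have hhalf : (L : ℝ) / 2 ≤ I * J := by nlinarith
  have hI0 : (2 : ℝ) ≤ I := by exact_mod_cast hI2
  have hIJμ : (I * J : ℝ) * μ * (4 * d) ≤ q := by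
    have h1 := mul_le_mul_of_nonneg_right hIle (show (0 : ℝ) ≤ 4 * d * μ by positivity)
    calc (I * J : ℝ) * μ * (4 * d) = I * J * (4 * d * μ) := by ring
      _ ≤ L * (4 * d * μ) := h1
      _ ≤ q := hLle
  refine ⟨I, J, by omega, hJn, hI2, ?_, ?_⟩
  · rw [le_div_iff₀ (by positivity)]
    push_cast
    exact hIJμ
  have hlhs : q ≤ (I * J) * μ * (9 * d) := by
    have h1 : q < (L + 1) * (4 * d * μ) := hLgt
    have h2 : (L / 2) * (8 * d * μ) ≤ (I * J) * (8 * d * μ) :=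
      mul_le_mul_of_nonneg_right hhalf (by positivity)
    have h3 : 4 * (d : ℝ) * μ ≤ q / 9 := by
      rw [hμ]
      have : (0 : ℝ) < (d : ℝ) ^ 3 := by positivity
      nlinarith
    nlinarith
  -- I ≤ J
  have hIJ : (I : ℝ) ≤ J := by
    by_contra hcon
    rw [not_le] at hcon
    have h1 : (J : ℝ) * J ≤ I * J := by nlinarith
    have h2 : (I * J : ℝ) ≤ I * J * (4 * d * μ) := by
      have h3 : 1 ≤ 4 * (d : ℝ) * μ := by
        rw [hμ]
        have : (1 : ℝ) ≤ (d : ℝ) ^ 3 := one_le_pow₀ hd1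
        nlinarith
      exact le_mul_of_one_le_right (by positivity) h3
    have h5 : 8 * q < J * J := by nlinarith
    linarith
  have hnI : (n : ℝ) * I * (2944 * d ^ 2) ≤ q := by
    have h1 : (n : ℝ) * I ≤ 2 * J0 * (I * J) := by nlinarith
    have h2 : 2 * J0 * (I * J) * (2944 * (d : ℝ) ^ 2) = (I * J) * μ * (4 * d) := by
      rw [hμJ]
      ring
    have h4 := mul_le_mul_of_nonneg_right h1 (show (0 : ℝ) ≤ 2944 * d ^ 2 by positivity)
    linarith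
  have hnI1 : (1 : ℝ) ≤ n * I := by
    have : (1 : ℝ) ≤ n := by
      have : 1 ≤ n := by omega
      exact_mod_cast this
    nlinarith
  have hlog : Real.log ((n * I : ℕ) : ℝ) ≤ n * I := by
    push_cast
    have := Real.log_le_sub_one_of_pos (show (0 : ℝ) < n * I by linarith)
    linarith
  have hlog2 : Real.log 2 ≤ 7 / 10 := by
    have := Real.log_two_lt_d9
    linarith
  have t1 : 12 * (d : ℝ) * (Real.log ((n * I : ℕ) : ℝ) + (n * I : ℕ) * Real.log 2) ≤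
      204 / 10 * (d * (n * I)) := by
    push_cast at hlog ⊢
    have h1 : (n : ℝ) * I * Real.log 2 ≤ n * I * (7 / 10) :=
      mul_le_mul_of_nonneg_left hlog2 (by positivity)
    have h2 : Real.log ((n : ℝ) * I) + n * I * Real.log 2 ≤ 17 / 10 * (n * I) := by linarith
    have h3 := mul_le_mul_of_nonneg_left h2 (show (0 : ℝ) ≤ 12 * d by positivity)
    linarith
  have t2 : (I : ℝ) * (2 * n) ≤ 2 * (d * (n * I)) := by
    have : (0 : ℝ) ≤ n * I := by positivity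
    nlinarith
  have t3 : (((I : ℝ) + J) * (9 * q / n)) * J0 ≤ 18 * q := by
    have h1 : ((I : ℝ) + J) * (9 * q / n) ≤ (2 * J) * (9 * q / n) :=
      mul_le_mul_of_nonneg_right (by linarith) (by positivity)
    have h2 : (2 * (J : ℝ)) * (9 * q / n) * J0 = 18 * q * (J * J0 / n) := by ring
    have h3 : (J : ℝ) * J0 / n ≤ 1 := by
      rw [div_le_one hn0]
      exact hJle
    have h4 := mul_le_mul_of_nonneg_left h3 (show (0 : ℝ) ≤ 18 * q by positivity)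
    have h5 := mul_le_mul_of_nonneg_right h1 hJ00.le
    linarith
  have t5 : d * (n * I : ℝ) * (2944 * d) ≤ q := by
    calc d * (n * I : ℝ) * (2944 * d) = n * I * (2944 * d ^ 2) := by ring
      _ ≤ q := hnI
  -- everything times d
  have e1 : 2 * (12 * d * (Real.log ((n * I : ℕ) : ℝ) + (n * I : ℕ) * Real.log 2) +
        I * (2 * n + 9 * q / n) + J * (9 * q / n)) =
      2 * (12 * d * (Real.log ((n * I : ℕ) : ℝ) + (n * I : ℕ) * Real.log 2)) +
        2 * (I * (2 * n)) + 2 * (((I : ℝ) + J) * (9 * q / n)) := by ring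
  rw [e1]
  have f1 : (448 / 10 * (d * (n * I : ℝ)) + 2 * (((I : ℝ) + J) * (9 * q / n))) * d < q / 9 := by
    have g1 : 448 / 10 * (d * (n * I : ℝ)) * d ≤ 448 / 10 * (q / 2944) := by linarith
    have g2 : 2 * (((I : ℝ) + J) * (9 * q / n)) * d ≤ 36 * q / 2304 := by
      rw [hJ0R] at t3
      linarith
    linarith
  have f2 : q / 9 ≤ (I * J) * μ * d := by linarith
  have f3 : 448 / 10 * (d * (n * I : ℝ)) + 2 * (((I : ℝ) + J) * (9 * q / n)) < (I * J) * μ := by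
    have := lt_of_lt_of_le f1 f2
    exact lt_of_mul_lt_mul_right this hd0.le
  push_cast at t1 ⊢
  linarith

end AbcRadK
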