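import Pool.Agent.Work.MP_a793bb_nt.RadE.EffHt
import Pool.Agent.Work.MP_a793bb_nt.RadE.EffDefs
import Pool.Agent.Work.MP_a793bb_nt.RadE.EffInfP
import Pool.Agent.Work.MP_a793bb_nt.RadK.MainInf
import Pool.Agent.Work.MP_a793bb_nt.RadK.ColorV
import Pool.Agent.Work.MP_a793bb_nt.RadK.CountRK

/-!
# Contradiction at an infinite place

Proof. `κ = 1 / (ℓ + d)`, `M = exp (3391488 d ^ 2)`, `η = 1 / (4 M) ≤ 1 / 2`, `cl` from
`exists_color_inf v η`. `|log (v u)| ≤ 1` (`log_near_one`), so for the `x` in the hypothesis of `PairP`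
`|log (v x)| ≤ 1 + C + ℓ`, and `cl x` lies in a product of two intervals of integers with at most
`(2 (4 M (1 + C + ℓ) + 1) + 1) (2 (16 M + 1) + 1) ≤ 11 M (1 + C + ℓ) * 35 M` elements
(`M ^ 2 = exp (6782976 d ^ 2)`). By `Num.hinf` and `PairP` there are `h, x, y`; `w = x / y`,
`n = N / h`, `I, J` from `inf_params`. As in `EffFin`, `logHeight₁ w⁻¹ ≤ 9 q / n`,
`logHeight₁ (u * w⁻¹ ^ n) ≤ 2 n + 9 q / n`. `v (w⁻¹ - 1) = v (y / x - 1) ≤ 4 η = 1 / M`.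
`v (u - 1) ≤ 2 exp (-(q / (2 d))) ≤ exp (-(q / (4 d))) ≤ 1 / M ^ (I J)`, since
`(I J) 3391488 d ^ 2 ≤ q / (4 d)` and `q / (4 d) ≥ 2 ≥ log 2`. `main_inf` with `τ = u`, `ξ = w⁻¹`
(`log M = 3391488 d ^ 2`) contradicts the inequality of `inf_params`.
-/

set_option autoImplicit false

namespace AbcRadK

open Finset AbcRad Pool.Agent.Work.MP_a793bb_nt Pool.Agent.Work.MP_a793bb_nt.BPlus NumberField
  IsDedekindDomain Height

variable {K : Type*} [Field K] [NumberField K]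

/-- Two heights. -/
private theorem ef_heights (ℓ q : ℝ) (hℓ : 1 ≤ ℓ) (N h : ℕ) (u w : K) (hu : u ≠ 0)
    (hw : w ≠ 0) (hr : lsum (supp u) ≤ ℓ) (hH : logHeight₁ u ≤ 2 * q) (hh1 : 1 ≤ h) (hhN : h ≤ N)
    (hNq : (N : ℝ) ≤ q)
    (hsupp : ∀ p, p ∉ supp u → kp p w = 0)
    (hfin : ∀ p, |(h : ℝ) * (kp p u : ℝ) - N * (kp p w : ℝ)| ≤
      1 / (ℓ + Module.finrank ℚ K) * N)
    (hinf : ∀ v : InfinitePlace K, |(h : ℝ) * Real.log (v u) - N * Real.log (v w)| ≤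
      1 / (ℓ + Module.finrank ℚ K) * N) :
    1 ≤ N / h ∧ logHeight₁ w⁻¹ ≤ 9 * q / ((N / h : ℕ) : ℝ) ∧
      logHeight₁ (u * w⁻¹ ^ (N / h)) ≤ 2 * ((N / h : ℕ) : ℝ) + 9 * q / ((N / h : ℕ) : ℝ) := by
  have hd0 : (0 : ℝ) ≤ Module.finrank ℚ K := Nat.cast_nonneg _
  obtain ⟨n, hn⟩ : ∃ n, n = N / h := ⟨_, rfl⟩
  have hn1 : 1 ≤ n := by
    rw [hn]
    exact Nat.div_pos hhN (by omega)
  have hnN : n ≤ N := by
    rw [hn]
    exact Nat.div_le_self N h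
  have hn1' : (1 : ℝ) ≤ n := by exact_mod_cast hn1
  have hnN' : (n : ℝ) ≤ N := by exact_mod_cast hnN
  have hs : 0 < ℓ + (Module.finrank ℚ K : ℝ) := by linarith
  have hκ : 0 < 1 / (ℓ + (Module.finrank ℚ K : ℝ)) := by positivity
  obtain ⟨h1, h2⟩ := eff_heights u w hu hw N h n (1 / (ℓ + Module.finrank ℚ K)) ℓ hκ (by linarith)
    hh1 hhN hn hr hsupp hfin hinf
  have e1 : 1 / (ℓ + (Module.finrank ℚ K : ℝ)) * (ℓ + (Module.finrank ℚ K : ℝ)) = 1 := by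
    field_simp
  have e2 : 2 * (1 / (ℓ + (Module.finrank ℚ K : ℝ))) * n * (ℓ + (Module.finrank ℚ K : ℝ)) =
      2 * n := by
    field_simp
  have h3 : 4 * logHeight₁ u / n ≤ 8 * q / n := by
    apply div_le_div_of_nonneg_right _ (by linarith)
    linarith
  have h4 : 1 ≤ q / n := by
    rw [one_le_div (by linarith)]
    linarith
  have e3 : 9 * q / n = 8 * q / n + q / n := by ring
  rw [e1] at h1 h2
  rw [e2] at h2
  rw [← hn]
  refine ⟨hn1, ?_, ?_⟩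
  · rw [e3]
    linarith
  · rw [e3]
    linarith

/-- The number of classes. -/
private theorem ei_card (M A : ℝ) (hM : 1 ≤ M) (hA : 1 ≤ A) :
    ((2 * ⌊A / (1 / (4 * M)) + 1⌋₊ + 1 : ℕ) : ℝ) * ((2 * ⌊4 / (1 / (4 * M)) + 1⌋₊ + 1 : ℕ) : ℝ) ≤
      385 * M ^ 2 * A := by
  have e : ∀ x : ℝ, x / (1 / (4 * M)) = 4 * x * M := by
    intro x
    field_simp
  rw [e, e]
  have h1 : ((2 * ⌊4 * A * M + 1⌋₊ + 1 : ℕ) : ℝ) ≤ 11 * (A * M) := by
    push_cast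
    have h2 : (⌊4 * A * M + 1⌋₊ : ℝ) ≤ 4 * A * M + 1 := Nat.floor_le (by positivity)
    have h3 : 1 ≤ A * M := one_le_mul_of_one_le_of_one_le hA hM
    linarith
  have h2 : ((2 * ⌊4 * 4 * M + 1⌋₊ + 1 : ℕ) : ℝ) ≤ 35 * M := by
    push_cast
    have h2 : (⌊4 * 4 * M + 1⌋₊ : ℝ) ≤ 4 * 4 * M + 1 := Nat.floor_le (by positivity)
    linarith
  calc ((2 * ⌊4 * A * M + 1⌋₊ + 1 : ℕ) : ℝ) * ((2 * ⌊4 * 4 * M + 1⌋₊ + 1 : ℕ) : ℝ)
      ≤ (11 * (A * M)) * (35 * M) := mul_le_mul h1 h2 (by positivity) (by positivity)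
    _ = 385 * M ^ 2 * A := by ring

theorem eff_inf (C ℓ q : ℝ) (hC : 1 ≤ C) (hP : PairP K C) (hℓ : 1 ≤ ℓ) (N H : ℕ)
    (hnum : Num (Module.finrank ℚ K) C ℓ q N H) (u : K) (hu : u ≠ 0)
    (hroot : ∀ i : ℕ, 0 < i → u ^ i ≠ 1) (hr : lsum (supp u) ≤ ℓ)
    (hH : logHeight₁ u ≤ 2 * q) (v : InfinitePlace K)
    (hv : v (u - 1) ≤ 2 * Real.exp (-(q / (2 * (Module.finrank ℚ K : ℝ))))) : False := by
  classical
  have hd1 : 1 ≤ Module.finrank ℚ K := Module.finrank_pos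
  have hd1' : (1 : ℝ) ≤ (Module.finrank ℚ K : ℝ) := by exact_mod_cast hd1
  have hnq := hnum.hq
  have hq : 0 < q := by linarith
  have hℓ0 : 0 < ℓ := by linarith
  have hNq : (N : ℝ) ≤ q := by
    refine hnum.hN.trans ?_
    rw [div_le_iff₀ (by positivity)]
    have h1 : 1 ≤ (Module.finrank ℚ K : ℝ) ^ 2 := one_le_pow₀ hd1'
    have h2 : 1 ≤ (Module.finrank ℚ K : ℝ) ^ 2 * ℓ := one_le_mul_of_one_le_of_one_le h1 hℓ
    nlinarith
  obtain ⟨M, hMd⟩ : ∃ M : ℝ, M = Real.exp (3391488 * (Module.finrank ℚ K : ℝ) ^ 2) := ⟨_, rfl⟩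
  have hM : 1 ≤ M := by
    rw [hMd]
    exact Real.one_le_exp (by positivity)
  have hM0 : 0 < M := by linarith
  have hM2 : M ^ 2 = Real.exp (6782976 * (Module.finrank ℚ K : ℝ) ^ 2) := by
    rw [hMd, ← Real.exp_nat_mul]
    congr 1
    push_cast
    ring
  have hη0 : 0 < 1 / (4 * M) := by positivity
  have hη1 : 1 / (4 * M) ≤ 1 / 2 := by
    rw [div_le_div_iff₀ (by positivity) (by norm_num)]
    linarith
  obtain ⟨cl, hcl1, hcl2⟩ := exists_color_inf v (1 / (4 * M)) hη0 hη1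
  have hlu : |Real.log (v u)| ≤ 1 :=
    log_near_one v u (Module.finrank ℚ K : ℝ) q (by linarith) hnum.hq hv
  -- the pigeonhole principle
  obtain ⟨T, hT⟩ : ∃ T : Finset (ℤ × ℤ), T =
      (Finset.Icc (-(⌊(C + ℓ + 1) / (1 / (4 * M)) + 1⌋₊ : ℤ))
        (⌊(C + ℓ + 1) / (1 / (4 * M)) + 1⌋₊ : ℤ)) ×ˢ
      (Finset.Icc (-(⌊4 / (1 / (4 * M)) + 1⌋₊ : ℤ)) (⌊4 / (1 / (4 * M)) + 1⌋₊ : ℤ)) := ⟨_, rfl⟩
  have hTc : (T.card : ℝ) ≤ 385 * Real.exp (6782976 * (Module.finrank ℚ K : ℝ) ^ 2) *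
      (C + ℓ + 1) := by
    have h1 : T.card = (2 * ⌊(C + ℓ + 1) / (1 / (4 * M)) + 1⌋₊ + 1) *
        (2 * ⌊4 / (1 / (4 * M)) + 1⌋₊ + 1) := by
      rw [hT, Finset.card_product, Int.card_Icc, Int.card_Icc]
      congr 1 <;> omega
    rw [h1, Nat.cast_mul, ← hM2]
    exact ei_card M (C + ℓ + 1) hM (by linarith)
  have hs0 : 0 < ℓ + (Module.finrank ℚ K : ℝ) := by linarith
  have hκ0 : 0 < 1 / (ℓ + (Module.finrank ℚ K : ℝ)) := by positivity
  have hκ1 : 1 / (ℓ + (Module.finrank ℚ K : ℝ)) ≤ 1 := by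
    rw [div_le_one hs0]
    linarith
  have hN1 : 1 ≤ N := hnum.hH1.trans hnum.hHN
  obtain ⟨h, x, y, hh1, hhH, hx0, hy0, hxy, hxs, hxf, hxi⟩ := hP u ℓ
    (1 / (ℓ + (Module.finrank ℚ K : ℝ))) N H cl T hu hℓ hr hκ0 hκ1
    hN1 hnum.hHN (by
      intro x _ hxv
      obtain ⟨h1, h2⟩ := hcl1 x
      rw [hT, Finset.mem_product]
      refine ⟨mem_Icc_floor (h1.trans ?_), mem_Icc_floor h2⟩
      have h3 := hxv v
      have h4 : |Real.log (v x)| / (1 / (4 * M)) ≤ (C + ℓ + 1) / (1 / (4 * M)) := by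
        apply div_le_div_of_nonneg_right _ hη0.le
        linarith
      linarith) (by
      have e1 : 5 / (1 / (ℓ + (Module.finrank ℚ K : ℝ))) = 5 * (ℓ + (Module.finrank ℚ K : ℝ)) := by
        field_simp
      have e2 : 7 * (C + ℓ) / (1 / (ℓ + (Module.finrank ℚ K : ℝ))) =
          7 * (C + ℓ) * (ℓ + (Module.finrank ℚ K : ℝ)) := by
        field_simp
      rw [e1, e2]
      refine le_trans ?_ hnum.hinf
      apply mul_le_mul_of_nonneg_left hTc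
      have : 0 ≤ C := by linarith
      positivity)
  have hhN : h ≤ N := hhH.trans hnum.hHN
  have hw : x / y ≠ 0 := div_ne_zero hx0 hy0
  have hkw : ∀ P, kp P (x / y) = kp P x - kp P y := fun P => kp_div P hx0 hy0
  have hvw : ∀ v : InfinitePlace K, Real.log (v (x / y)) = Real.log (v x) - Real.log (v y) := by
    intro v
    rw [map_div₀, Real.log_div (InfinitePlace.pos_iff.2 hx0).ne' (InfinitePlace.pos_iff.2 hy0).ne']
  obtain ⟨hn1, hw1, hw2⟩ := ef_heights ℓ q hℓ N h u (x / y) hu hw hr hH hh1 hhN hNq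
    (by
      intro P hPs
      rw [hkw, hxs P hPs, sub_self])
    (by
      intro P
      rw [hkw]
      push_cast
      exact hxf P)
    (by
      intro v
      rw [hvw]
      exact hxi v)
  obtain ⟨I, J, hJ8, hJn, hI, hIJ, hlt⟩ := inf_params (Module.finrank ℚ K) hd1 ℓ q hℓ
    hq (N / h) N (Nat.div_le_self N h) hnum.hN (hnum.hn h hh1 hhH)
  have hlM : Real.log M = 3391488 * (Module.finrank ℚ K : ℝ) ^ 2 := by
    rw [hMd, Real.log_exp]
  have hm := main_inf (N / h) I J hJ8 hJn hI v M hM u (x / y)⁻¹ hu (inv_ne_zero hw)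
    (fun i hi _ => hroot i hi)
    (by
      have e : (x / y)⁻¹ = y / x := by rw [inv_div]
      rw [e]
      refine (hcl2 y x hy0 hx0 hxy.symm).trans (le_of_eq ?_)
      field_simp)
    (by
      have h1 : 1 / M ^ (I * J) = Real.exp (-((I * J : ℕ) * (3391488 *
          (Module.finrank ℚ K : ℝ) ^ 2))) := by
        rw [hMd, ← Real.exp_nat_mul, one_div, ← Real.exp_neg]
      rw [h1]
      refine hv.trans ?_
      have h2 : (2 : ℝ) ≤ q / (4 * (Module.finrank ℚ K : ℝ)) := by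
        rw [le_div_iff₀ (by positivity)]
        linarith
      have h3 : (2 : ℝ) ≤ Real.exp (q / (4 * (Module.finrank ℚ K : ℝ))) := by
        have := Real.add_one_le_exp (q / (4 * (Module.finrank ℚ K : ℝ)))
        linarith
      have h4 : q / (2 * (Module.finrank ℚ K : ℝ)) = q / (4 * (Module.finrank ℚ K : ℝ)) +
          q / (4 * (Module.finrank ℚ K : ℝ)) := by
        field_simp
        ring
      have h5 : 2 * Real.exp (-(q / (2 * (Module.finrank ℚ K : ℝ)))) ≤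
          Real.exp (-(q / (4 * (Module.finrank ℚ K : ℝ)))) := by
        rw [h4, neg_add, Real.exp_add]
        have h6 : 2 * Real.exp (-(q / (4 * (Module.finrank ℚ K : ℝ)))) ≤ 1 := by
          rw [Real.exp_neg, ← div_eq_mul_inv, div_le_one (Real.exp_pos _)]
          exact h3
        have h7 := mul_le_mul_of_nonneg_right h6
          (Real.exp_pos (-(q / (4 * (Module.finrank ℚ K : ℝ))))).le
        linarith
      refine h5.trans (Real.exp_le_exp.2 ?_)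
      linarith)
  rw [hlM] at hm
  have hI0 : (0 : ℝ) ≤ I := Nat.cast_nonneg _
  have hJ0 : (0 : ℝ) ≤ J := Nat.cast_nonneg _
  have h1 := mul_le_mul_of_nonneg_left hw2 hI0
  have h2 := mul_le_mul_of_nonneg_left hw1 hJ0
  linarith

end AbcRadK
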