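import Pool.Agent.Work.MP_a793bb_nt.RadE.EffDefs

/-!
# Choice of the parameters

Proof. Let `H = ⌈exp (C₁ ℓ ^ 2)⌉₊` with `C₁ = C₁(d, C)` so large that `hfin` and `hinf` hold for all
`ℓ ≥ 1`: use `log x ≤ x`, so that (with `x = ℓ + d ≤ (1 + d) ℓ`)
`(5 x) ^ (2 ℓ) = exp (2 ℓ log (5 x)) ≤ exp (10 ℓ x) ≤ exp (10 (1 + d) ℓ ^ 2)`,
`(7 (C + ℓ) x) ^ d ≤ exp (d (7 (C + ℓ) + x))` and so on, every exponent being at most a constant
times `ℓ ^ 2` as `ℓ ≥ 1`. `N = ⌊q / (30000 d ^ 2 ℓ)⌋₊`. For `q ≥ exp (C' ℓ ^ 2)`, `C' ≥ 2 C₁ + ...`: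
`N / h ≥ N / H - 1 ≥ q / (60000 d ^ 2 ℓ H) - 1` (natural division on the left), and this is at least
`2 (865 ℓ + 1 + 2304 d) (√(2 q) + 9)` if `√q ≥ c ℓ ^ 2 H` with a constant `c = c(d)`, which holds as
`√q ≥ exp (C' ℓ ^ 2 / 2)`. `H ≤ N` follows from `hn` for `h = H` (`N / H ≥ 1`), or directly.
-/

set_option autoImplicit false

namespace AbcRadK

open Finset

/-- `x ≤ exp x`. -/
private theorem en_le_exp (x : ℝ) : x ≤ Real.exp x := by
  have := Real.add_one_le_exp x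
  linarith

private theorem en_common (d : ℕ) (C ℓ : ℝ) (hd : (1 : ℝ) ≤ d) (hC : 1 ≤ C) (hℓ : 1 ≤ ℓ) :
    C * (5 * (ℓ + d)) ^ (2 * ℓ) * (7 * (C + ℓ) * (ℓ + d)) ^ d ≤
      Real.exp ((C + 10 * (1 + d) + d * (7 * C + 8 + d)) * ℓ ^ 2) := by
  have hsq : ℓ ≤ ℓ ^ 2 := by nlinarith
  have h1sq : 1 ≤ ℓ ^ 2 := by nlinarith
  have e1 : C ≤ Real.exp (C * ℓ ^ 2) := by
    refine (en_le_exp C).trans (Real.exp_le_exp.2 ?_)
    nlinarith
  have e2 : (5 * (ℓ + d)) ^ (2 * ℓ) ≤ Real.exp (10 * (1 + d) * ℓ ^ 2) := by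
    have h0 : 0 ≤ 5 * (ℓ + (d : ℝ)) := by linarith
    calc (5 * (ℓ + d)) ^ (2 * ℓ) ≤ (Real.exp (5 * (ℓ + d))) ^ (2 * ℓ) :=
          Real.rpow_le_rpow h0 (en_le_exp _) (by linarith)
      _ = Real.exp (5 * (ℓ + d) * (2 * ℓ)) := (Real.exp_mul _ _).symm
      _ ≤ Real.exp (10 * (1 + d) * ℓ ^ 2) := by
          refine Real.exp_le_exp.2 ?_
          have : (d : ℝ) * ℓ ≤ d * ℓ ^ 2 := mul_le_mul_of_nonneg_left hsq (by linarith)
          nlinarith
  have e3 : (7 * (C + ℓ) * (ℓ + d)) ^ d ≤ Real.exp (d * (7 * C + 8 + d) * ℓ ^ 2) := by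
    have h0 : 0 ≤ 7 * (C + ℓ) * (ℓ + (d : ℝ)) := by
      refine mul_nonneg ?_ ?_ <;> linarith
    have h1 : 7 * (C + ℓ) * (ℓ + (d : ℝ)) ≤ Real.exp (7 * (C + ℓ) + (ℓ + d)) := by
      rw [Real.exp_add]
      exact mul_le_mul (en_le_exp _) (en_le_exp _) (by linarith) (Real.exp_pos _).le
    calc (7 * (C + ℓ) * (ℓ + d)) ^ d ≤ (Real.exp (7 * (C + ℓ) + (ℓ + d))) ^ d :=
          pow_le_pow_left₀ h0 h1 d
      _ = Real.exp (d * (7 * (C + ℓ) + (ℓ + d))) := (Real.exp_nat_mul _ _).symm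
      _ ≤ Real.exp (d * (7 * C + 8 + d) * ℓ ^ 2) := by
          refine Real.exp_le_exp.2 ?_
          rw [mul_assoc]
          refine mul_le_mul_of_nonneg_left ?_ (by linarith)
          nlinarith
  have p2 : 0 ≤ (5 * (ℓ + (d : ℝ))) ^ (2 * ℓ) := Real.rpow_nonneg (by linarith) _
  have p3 : 0 ≤ (7 * (C + ℓ) * (ℓ + (d : ℝ))) ^ d := by
    refine pow_nonneg ?_ _
    refine mul_nonneg ?_ ?_ <;> linarith
  calc C * (5 * (ℓ + d)) ^ (2 * ℓ) * (7 * (C + ℓ) * (ℓ + d)) ^ d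
      ≤ Real.exp (C * ℓ ^ 2) * Real.exp (10 * (1 + d) * ℓ ^ 2) *
        Real.exp (d * (7 * C + 8 + d) * ℓ ^ 2) := by
        refine mul_le_mul ?_ e3 p3 (by positivity)
        exact mul_le_mul e1 e2 p2 (by positivity)
    _ = Real.exp ((C + 10 * (1 + d) + d * (7 * C + 8 + d)) * ℓ ^ 2) := by
        rw [← Real.exp_add, ← Real.exp_add]
        congr 1
        ring

private theorem en_nat_div (N H h : ℕ) (hh : 1 ≤ h) (hhH : h ≤ H) :
    (N : ℝ) / H - 1 ≤ ((N / h : ℕ) : ℝ) := by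
  have hH : (0 : ℝ) < H := by
    have : 0 < H := by omega
    exact_mod_cast this
  have h1 : N / H ≤ N / h := Nat.div_le_div_left hhH (by omega)
  have h2 : (N : ℝ) < ((N / H : ℕ) + 1 : ℝ) * H := by
    have h3 : N < (N / H + 1) * H := by
      have := Nat.lt_mul_div_succ N (show 0 < H by omega)
      rw [mul_comm]
      exact this
    exact_mod_cast h3
  have h3 : (N : ℝ) / H < ((N / H : ℕ) + 1 : ℝ) := by
    rw [div_lt_iff₀ hH]
    exact h2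
  have h4 : ((N / H : ℕ) : ℝ) ≤ ((N / h : ℕ) : ℝ) := by exact_mod_cast h1
  linarith

theorem exists_num (d : ℕ) (hd : 1 ≤ d) (C : ℝ) (hC : 1 ≤ C) :
    ∃ C' : ℝ, 1 ≤ C' ∧ ∀ ℓ q : ℝ, 1 ≤ ℓ → Real.exp (C' * ℓ ^ 2) ≤ q →
      ∃ N H : ℕ, Num d C ℓ q N H := by
  have hD : (1 : ℝ) ≤ d := by exact_mod_cast hd
  obtain ⟨B, hB⟩ : ∃ B : ℝ, B = C + 10 * (1 + d) + d * (7 * C + 8 + d) := ⟨_, rfl⟩
  obtain ⟨A, hA⟩ : ∃ A : ℝ, A = B + (1 + 637505 * d) + (387 + 6782976 * d ^ 2 + C) := ⟨_, rfl⟩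
  have hB0 : 0 ≤ B := by
    rw [hB]
    positivity
  have hA0 : 0 ≤ A := by
    rw [hA]
    positivity
  obtain ⟨c, hc⟩ : ∃ c : ℝ, c = 4200120000 * (d : ℝ) ^ 3 := ⟨_, rfl⟩
  have hd3 : (d : ℝ) ≤ (d : ℝ) ^ 3 := by nlinarith [sq_nonneg ((d : ℝ) - 1)]
  have hcd : 8 * (d : ℝ) ≤ c := by
    rw [hc]
    linarith
  refine ⟨2 * (c + 1 + A), by linarith, ?_⟩
  intro ℓ q hℓ hq
  have hsq : ℓ ≤ ℓ ^ 2 := by nlinarith
  have h1sq : 1 ≤ ℓ ^ 2 := by nlinarith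
  have hcom := en_common d C ℓ hD hC hℓ
  rw [← hB] at hcom
  -- the number `H`
  obtain ⟨H, hH⟩ : ∃ H : ℕ, H = ⌈Real.exp (A * ℓ ^ 2)⌉₊ := ⟨_, rfl⟩
  have hHge : Real.exp (A * ℓ ^ 2) ≤ H := by
    rw [hH]
    exact Nat.le_ceil _
  have hexp1 : 1 ≤ Real.exp (A * ℓ ^ 2) := Real.one_le_exp (by positivity)
  have hHle : (H : ℝ) ≤ 2 * Real.exp (A * ℓ ^ 2) := by
    have := Nat.ceil_lt_add_one (Real.exp_pos (A * ℓ ^ 2)).le
    rw [hH]
    linarith
  have hH1 : 1 ≤ H := by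
    have : (1 : ℝ) ≤ H := hexp1.trans hHge
    exact_mod_cast this
  have hH1' : (1 : ℝ) ≤ H := by exact_mod_cast hH1
  -- the square root of `q`
  have hq0 : 0 < q := lt_of_lt_of_le (Real.exp_pos _) hq
  obtain ⟨s, hs⟩ : ∃ s : ℝ, s = √q := ⟨_, rfl⟩
  have hs0 : 0 ≤ s := by
    rw [hs]
    exact Real.sqrt_nonneg _
  have hss : s * s = q := by
    rw [hs]
    exact Real.mul_self_sqrt hq0.le
  have hsexp : Real.exp ((c + 1 + A) * ℓ ^ 2) ≤ s := by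
    rw [hs]
    refine Real.le_sqrt_of_sq_le ?_
    rw [← Real.exp_nat_mul]
    refine le_trans (Real.exp_le_exp.2 (le_of_eq ?_)) hq
    push_cast
    ring
  have hsbig : c * ℓ ^ 2 * Real.exp (A * ℓ ^ 2) ≤ s := by
    refine le_trans ?_ hsexp
    have e : (c + 1 + A) * ℓ ^ 2 = c * ℓ ^ 2 + ℓ ^ 2 + A * ℓ ^ 2 := by ring
    rw [e, Real.exp_add, Real.exp_add]
    refine mul_le_mul_of_nonneg_right ?_ (Real.exp_pos _).le
    refine mul_le_mul ?_ (en_le_exp _) (by positivity) (Real.exp_pos _).le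
    refine (en_le_exp c).trans (Real.exp_le_exp.2 ?_)
    have : 0 ≤ c := by linarith
    nlinarith
  have hc1 : 1 ≤ c := by linarith
  have hs1 : 1 ≤ s := by
    have h1 : 1 ≤ Real.exp ((c + 1 + A) * ℓ ^ 2) := Real.one_le_exp (by positivity)
    linarith
  have hsqrt : √(2 * q) ≤ 2 * s := by
    rw [← hss]
    have h1 : 2 * (s * s) ≤ (2 * s) ^ 2 := by nlinarith [mul_self_nonneg s]
    exact (Real.sqrt_le_sqrt h1).trans (le_of_eq (Real.sqrt_sq (by linarith)))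
  -- the number `N`
  obtain ⟨N, hN⟩ : ∃ N : ℕ, N = ⌊q / (30000 * d ^ 2 * ℓ)⌋₊ := ⟨_, rfl⟩
  have hden : 0 < 30000 * (d : ℝ) ^ 2 * ℓ := by positivity
  have hNle : (N : ℝ) ≤ q / (30000 * d ^ 2 * ℓ) := by
    rw [hN]
    exact Nat.floor_le (by positivity)
  have hNge : q / (30000 * d ^ 2 * ℓ) - 1 ≤ N := by
    have := Nat.lt_floor_add_one (q / (30000 * d ^ 2 * ℓ))
    rw [hN]
    linarith
  have hmain : ∀ h : ℕ, 1 ≤ h → h ≤ H →
      2 * ((⌈864 * ℓ⌉₊ : ℝ) + 2304 * d) * (√(2 * q) + 9) ≤ ((N / h : ℕ) : ℝ) := by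
    intro h hh1 hhH
    refine le_trans ?_ (en_nat_div N H h hh1 hhH)
    have hHpos : (0 : ℝ) < H := by linarith
    have a1 : (⌈864 * ℓ⌉₊ : ℝ) ≤ 865 * ℓ := by
      have := Nat.ceil_lt_add_one (show (0 : ℝ) ≤ 864 * ℓ by linarith)
      linarith
    have a2 : (⌈864 * ℓ⌉₊ : ℝ) + 2304 * d ≤ 3169 * (d * ℓ) := by
      have h1 : ℓ ≤ d * ℓ := by nlinarith
      have h2 : (d : ℝ) ≤ d * ℓ := by nlinarith
      linarith
    have a3 : √(2 * q) + 9 ≤ 11 * s := by linarith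
    have a4 : 2 * ((⌈864 * ℓ⌉₊ : ℝ) + 2304 * d) * (√(2 * q) + 9) ≤
        2 * (3169 * (d * ℓ)) * (11 * s) := by
      refine mul_le_mul ?_ a3 ?_ ?_
      · linarith
      · have := Real.sqrt_nonneg (2 * q)
        linarith
      · positivity
    refine a4.trans ?_
    have a5 : (q / (30000 * d ^ 2 * ℓ) - 1) / H - 1 ≤ (N : ℝ) / H - 1 := by
      have := div_le_div_of_nonneg_right hNge hHpos.le
      linarith
    refine le_trans ?_ a5
    have a6 : q / (30000 * d ^ 2 * ℓ) / H - 2 ≤ (q / (30000 * d ^ 2 * ℓ) - 1) / H - 1 := by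
      rw [sub_div]
      have : 1 / (H : ℝ) ≤ 1 := by
        rw [div_le_one hHpos]
        exact hH1'
      linarith
    refine le_trans ?_ a6
    have a7 : 70002 * (d * ℓ) * s ≤ q / (30000 * d ^ 2 * ℓ) / H := by
      rw [le_div_iff₀ hHpos, le_div_iff₀ hden, ← hss]
      have b1 : c * ℓ ^ 2 * (H / 2) ≤ s := by
        refine le_trans ?_ hsbig
        refine mul_le_mul_of_nonneg_left ?_ (by positivity)
        linarith
      have b2 : 70002 * (d * ℓ) * s * H * (30000 * d ^ 2 * ℓ) = (c * ℓ ^ 2 * (H / 2)) * s := by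
        rw [hc]
        ring
      rw [b2]
      exact mul_le_mul_of_nonneg_right b1 hs0
    have a8 : 1 ≤ (d : ℝ) * ℓ * s := by
      have h1 : 1 ≤ (d : ℝ) * ℓ := by nlinarith
      nlinarith
    nlinarith
  have hHN : H ≤ N := by
    have h1 := hmain H hH1 le_rfl
    have h2 : (0 : ℝ) < 2 * ((⌈864 * ℓ⌉₊ : ℝ) + 2304 * d) * (√(2 * q) + 9) := by
      have := Real.sqrt_nonneg (2 * q)
      positivity
    have h3 : (0 : ℝ) < ((N / H : ℕ) : ℝ) := h2.trans_le h1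
    have h4 : 0 < N / H := by exact_mod_cast h3
    exact (Nat.div_pos_iff.1 h4).2
  refine ⟨N, H, hH1, hHN, ?_, hNle, hmain, ?_, ?_⟩
  · have h1 : 8 * (d : ℝ) ≤ 2 * (c + 1 + A) * ℓ ^ 2 := by
      have h2 : 8 * (d : ℝ) ≤ 2 * (c + 1 + A) := by linarith
      nlinarith
    exact h1.trans ((en_le_exp _).trans hq)
  · refine le_trans ?_ hHge
    have h1 : 2 * Real.exp (637505 * d * ℓ) ≤ Real.exp ((1 + 637505 * d) * ℓ ^ 2) := by
      have h2 : (2 : ℝ) ≤ Real.exp 1 := by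
        have := Real.add_one_le_exp (1 : ℝ)
        linarith
      calc 2 * Real.exp (637505 * d * ℓ) ≤ Real.exp 1 * Real.exp (637505 * d * ℓ) :=
            mul_le_mul_of_nonneg_right h2 (Real.exp_pos _).le
        _ = Real.exp (1 + 637505 * d * ℓ) := (Real.exp_add _ _).symm
        _ ≤ Real.exp ((1 + 637505 * d) * ℓ ^ 2) := by
            refine Real.exp_le_exp.2 ?_
            have : 637505 * (d : ℝ) * ℓ ≤ 637505 * d * ℓ ^ 2 :=
              mul_le_mul_of_nonneg_left hsq (by positivity)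
            nlinarith
    calc C * (5 * (ℓ + d)) ^ (2 * ℓ) * (7 * (C + ℓ) * (ℓ + d)) ^ d *
          (2 * Real.exp (637505 * d * ℓ))
        ≤ Real.exp (B * ℓ ^ 2) * Real.exp ((1 + 637505 * d) * ℓ ^ 2) :=
          mul_le_mul hcom h1 (by positivity) (Real.exp_pos _).le
      _ = Real.exp ((B + (1 + 637505 * d)) * ℓ ^ 2) := by
          rw [← Real.exp_add]
          congr 1
          ring
      _ ≤ Real.exp (A * ℓ ^ 2) := by
          refine Real.exp_le_exp.2 (mul_le_mul_of_nonneg_right ?_ (by positivity))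
          rw [hA]
          have : 0 ≤ 387 + 6782976 * (d : ℝ) ^ 2 + C := by positivity
          linarith
  · refine le_trans ?_ hHge
    have h1 : 385 * Real.exp (6782976 * d ^ 2) * (C + ℓ + 1) ≤
        Real.exp ((387 + 6782976 * d ^ 2 + C) * ℓ ^ 2) := by
      have h2 : (385 : ℝ) ≤ Real.exp 385 := en_le_exp _
      have h3 : C + ℓ + 1 ≤ Real.exp (C + ℓ + 1) := en_le_exp _
      calc 385 * Real.exp (6782976 * d ^ 2) * (C + ℓ + 1)
          ≤ Real.exp 385 * Real.exp (6782976 * d ^ 2) * Real.exp (C + ℓ + 1) := by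
            refine mul_le_mul ?_ h3 (by positivity) (by positivity)
            exact mul_le_mul_of_nonneg_right h2 (Real.exp_pos _).le
        _ = Real.exp (385 + 6782976 * d ^ 2 + (C + ℓ + 1)) := by
            rw [← Real.exp_add, ← Real.exp_add]
        _ ≤ Real.exp ((387 + 6782976 * d ^ 2 + C) * ℓ ^ 2) := by
            refine Real.exp_le_exp.2 ?_
            have h4 : 6782976 * (d : ℝ) ^ 2 ≤ 6782976 * d ^ 2 * ℓ ^ 2 := by
              have : 0 ≤ 6782976 * (d : ℝ) ^ 2 := by positivity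
              nlinarith
            have h5 : C ≤ C * ℓ ^ 2 := by nlinarith
            nlinarith
    calc C * (5 * (ℓ + d)) ^ (2 * ℓ) * (7 * (C + ℓ) * (ℓ + d)) ^ d *
          (385 * Real.exp (6782976 * d ^ 2) * (C + ℓ + 1))
        ≤ Real.exp (B * ℓ ^ 2) * Real.exp ((387 + 6782976 * d ^ 2 + C) * ℓ ^ 2) :=
          mul_le_mul hcom h1 (by positivity) (Real.exp_pos _).le
      _ = Real.exp ((B + (387 + 6782976 * d ^ 2 + C)) * ℓ ^ 2) := by
          rw [← Real.exp_add]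
          congr 1
          ring
      _ ≤ Real.exp (A * ℓ ^ 2) := by
          refine Real.exp_le_exp.2 (mul_le_mul_of_nonneg_right ?_ (by positivity))
          rw [hA]
          have : 0 ≤ 1 + 637505 * (d : ℝ) := by positivity
          linarith

end AbcRadK
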