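import Pool.Agent.Work.MP_a793bb_nt.RadK.DecK
import Pool.Agent.Work.MP_a793bb_nt.RadK.LabK
import Pool.Agent.Work.MP_a793bb_nt.RadE.EffDefs

/-!
# The pigeonhole principle for approximate roots

Proof. `C₀, G` from `exists_dec`; `C` the maximum (or sum) of `C₀`, `#G` and `1`. For `j ≤ H` let
`(b_j, ξ_j)` be given by `exists_dec` for `N` and `u ^ j` (`u ^ j ≠ 0`, `supp (u ^ j) ⊆ supp u`,
`kp p (u ^ j) = j kp p u`, `log (v (u ^ j)) = j log (v u)`). The label of `j` is
`(b_j ∈ G, φ_j, ω_j, cl ξ_j)`, `φ_j p = ⌊gr N (j kp p u) / (κ N)⌋` for `p ∈ supp u`, an integer in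
`[-c, c]`, `c = ⌈1 / κ⌉₊` (`gr_abs`: `|gr N e| ≤ N / 2`), `2 c + 1 ≤ 5 / κ`, and
`ω_j v = ⌊(log (v ξ_j) - j log (v u) / N) / κ⌋`, of absolute value at most `c' = ⌈(C₀ + ℓ) / κ⌉₊ + 1`
(`Dec.arch`), `2 c' + 1 ≤ 7 (C + ℓ) / κ` (as `C + ℓ ≥ 1 ≥ κ`). `#supp u ≤ lsum (supp u) / log 2 ≤ 2 ℓ`
(`lN p ≥ log 2`), the number of infinite places is at most `d`, `5 / κ ≥ 1`, `7 (C + ℓ) / κ ≥ 1`,
`cl ξ_j ∈ T` because `|log (v ξ_j)| ≤ (j / N) |log (v u)| + C₀ + ℓ` and `j ≤ N`. So the number of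
labels is at most `H < H + 1`, and two numbers `j₁ < j₂ ≤ H` have the same label. Put
`h = j₂ - j₁`, `x = ξ_{j₂}`, `y = ξ_{j₁}`. By `Dec.val`, `N kp p ξ_j = N fr N (j e) + N ex b p
= j e - gr N (j e) + N ex b p`, so `N (kp p x - kp p y) = h e - (gr_2 - gr_1)` with
`|gr_2 - gr_1| ≤ κ N` (equal floors; for `p ∉ supp u`, `e = 0` and `fr_zero`, `gr_zero`). The
archimedean claim is the equality of the floors `ω` multiplied by `N`.
-/

set_option autoImplicit false

namespace AbcRadK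

open Finset AbcRad Pool.Agent.Work.MP_a793bb_nt Pool.Agent.Work.MP_a793bb_nt.BPlus NumberField
  IsDedekindDomain Height

/-- Two reals with the same floor after division by `κ` differ by at most `κ`. -/
private theorem pg_floor {κ a b : ℝ} (hκ : 0 < κ) (h : ⌊a / κ⌋ = ⌊b / κ⌋) : |a - b| ≤ κ := by
  have h1 := Int.abs_sub_lt_one_of_floor_eq_floor h
  have h2 : a / κ - b / κ = (a - b) / κ := by ring
  rw [h2, abs_div, abs_of_pos hκ, div_lt_one hκ] at h1
  exact h1.le

private theorem pg_card_supp {K : Type*} [Field K] [NumberField K]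
    (S : Finset (HeightOneSpectrum (𝓞 K))) : (S.card : ℝ) ≤ 2 * lsum S := by
  have h1 : ∀ p ∈ S, (1 : ℝ) / 2 ≤ lN p := by
    intro p _
    have h2 : (2 : ℝ) ≤ Np p := two_le_Np p
    have h3 : Real.log 2 ≤ lN p := Real.log_le_log (by norm_num) h2
    have h4 := Real.log_two_gt_d9
    linarith
  have h2 : (S.card : ℝ) * (1 / 2) ≤ lsum S := by
    have h3 := Finset.card_nsmul_le_sum S (fun p => lN p) (1 / 2) h1
    rw [nsmul_eq_mul] at h3
    exact h3
  linarith

private theorem pg_card_places (K : Type*) [Field K] [NumberField K] :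
    Fintype.card (InfinitePlace K) ≤ Module.finrank ℚ K := by
  rw [← InfinitePlace.sum_mult_eq, ← Finset.card_univ, Finset.card_eq_sum_ones]
  exact Finset.sum_le_sum fun w _ => InfinitePlace.mult_pos

private theorem pg_range {κ x B : ℝ} (hκ : 0 < κ) (hx : |x| ≤ B) :
    ⌊x / κ⌋ ∈ Icc (-(⌈B / κ⌉₊ : ℤ)) (⌈B / κ⌉₊ : ℤ) := by
  have h3 : |x / κ| ≤ B / κ := by
    rw [abs_div, abs_of_pos hκ]
    exact div_le_div_of_nonneg_right hx hκ.le
  have h4 : (B / κ : ℝ) ≤ ⌈B / κ⌉₊ := Nat.le_ceil _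
  rw [abs_le] at h3
  rw [Finset.mem_Icc]
  constructor
  · rw [Int.le_floor]
    push_cast
    linarith [h3.1]
  · have h5 : (⌊x / κ⌋ : ℝ) ≤ (⌈B / κ⌉₊ : ℝ) :=
      (Int.floor_le _).trans (h3.2.trans h4)
    exact_mod_cast h5

private theorem pg_ceil {κ B : ℝ} (hκ : 0 < κ) (hB : κ ≤ B) :
    ((2 * ⌈B / κ⌉₊ + 1 : ℕ) : ℝ) ≤ 5 * B / κ := by
  have h0 : 0 ≤ B / κ := div_nonneg (hκ.le.trans hB) hκ.le
  have h1 := Nat.ceil_lt_add_one h0
  have h2 : 1 ≤ B / κ := by
    rw [le_div_iff₀ hκ]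
    linarith
  push_cast
  have h3 : 5 * B / κ = 5 * (B / κ) := by ring
  rw [h3]
  linarith

theorem exists_pairP (K : Type*) [Field K] [NumberField K] : ∃ C : ℝ, 1 ≤ C ∧ PairP K C := by
  classical
  obtain ⟨C₀, G, hC₀, hdec⟩ := exists_dec K
  obtain ⟨C, hC⟩ : ∃ C : ℝ, C = C₀ + G.card + 1 := ⟨_, rfl⟩
  have hG0 : (0 : ℝ) ≤ G.card := Nat.cast_nonneg _
  refine ⟨C, by rw [hC]; linarith, ?_⟩
  intro u ℓ κ N H cl T hu hℓ hls hκ hκ1 hN hHN hT hcard
  have hN0 : (0 : ℝ) < N := by exact_mod_cast hN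
  have hup : ∀ j : ℕ, u ^ j ≠ 0 := fun j => pow_ne_zero j hu
  have hkpj : ∀ (j : ℕ) (p : HeightOneSpectrum (𝓞 K)), kp p (u ^ j) = j * kp p u :=
    fun j p => kp_pow p hu j
  have hsub : ∀ j : ℕ, supp (u ^ j) ⊆ supp u := by
    intro j p hp
    rw [mem_supp (hup j), hkpj] at hp
    rw [mem_supp hu]
    intro h
    apply hp
    rw [h, mul_zero]
  have hlogj : ∀ (j : ℕ) (v : InfinitePlace K), Real.log (v (u ^ j)) = j * Real.log (v u) := by
    intro j v
    rw [map_pow, Real.log_pow]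
  choose bf hbG ξf hξ using fun j : ℕ => hdec N (u ^ j) hN (hup j)
  have harch : ∀ (j : ℕ) (v : InfinitePlace K),
      |Real.log (v (ξf j)) - j * Real.log (v u) / N| ≤ C₀ + ℓ := by
    intro j v
    have h1 := (hξ j).arch v
    rw [hlogj] at h1
    have h2 := lsum_mono (hsub j)
    linarith
  obtain ⟨c, hc⟩ : ∃ c : ℕ, c = ⌈1 / κ⌉₊ := ⟨_, rfl⟩
  obtain ⟨c', hc'⟩ : ∃ c' : ℕ, c' = ⌈(C₀ + ℓ) / κ⌉₊ := ⟨_, rfl⟩
  obtain ⟨lab, hlab⟩ : ∃ lab : Finset (Ideal (𝓞 K) ×
      (((p : HeightOneSpectrum (𝓞 K)) → p ∈ supp u → ℤ) × ((InfinitePlace K → ℤ) × (ℤ × ℤ)))),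
      lab = G ×ˢ (((supp u).pi (fun _ => Icc (-(c : ℤ)) (c : ℤ))) ×ˢ
        ((Fintype.piFinset (fun _ : InfinitePlace K => Icc (-(c' : ℤ)) (c' : ℤ))) ×ˢ T)) :=
    ⟨_, rfl⟩
  obtain ⟨f, hf⟩ : ∃ f : ℕ → (Ideal (𝓞 K) ×
      (((p : HeightOneSpectrum (𝓞 K)) → p ∈ supp u → ℤ) × ((InfinitePlace K → ℤ) × (ℤ × ℤ)))),
      f = fun j => (bf j, (fun p _ => ⌊(gr N (kp p (u ^ j)) : ℝ) / (κ * N)⌋,
        (fun v : InfinitePlace K => ⌊(Real.log (v (ξf j)) - j * Real.log (v u) / N) / κ⌋,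
          cl (ξf j)))) := ⟨_, rfl⟩
  have hlabcard : lab.card ≤ H := by
    have e1 : lab.card = G.card * ((2 * c + 1) ^ (supp u).card *
        ((2 * c' + 1) ^ Fintype.card (InfinitePlace K) * T.card)) := by
      rw [hlab, Finset.card_product, Finset.card_product, Finset.card_product, card_pi_Icc,
        card_piF_Icc]
    have e2 : ((2 * c + 1 : ℕ) : ℝ) ^ (supp u).card ≤ (5 / κ) ^ (2 * ℓ) := by
      have a1 : ((2 * c + 1 : ℕ) : ℝ) ≤ 5 / κ := by
        have := pg_ceil hκ hκ1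
        rw [hc]
        rw [mul_one] at this
        exact this
      have a2 : (1 : ℝ) ≤ 5 / κ := by
        rw [le_div_iff₀ hκ]
        linarith
      calc ((2 * c + 1 : ℕ) : ℝ) ^ (supp u).card ≤ (5 / κ) ^ (supp u).card :=
            pow_le_pow_left₀ (Nat.cast_nonneg _) a1 _
        _ = (5 / κ) ^ ((supp u).card : ℝ) := (Real.rpow_natCast _ _).symm
        _ ≤ (5 / κ) ^ (2 * ℓ) := by
            refine Real.rpow_le_rpow_of_exponent_le a2 ?_
            have := pg_card_supp (supp u)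
            linarith
    have e3 : ((2 * c' + 1 : ℕ) : ℝ) ^ Fintype.card (InfinitePlace K) ≤
        (7 * (C + ℓ) / κ) ^ (Module.finrank ℚ K) := by
      have a0 : κ ≤ C₀ + ℓ := by linarith
      have a1 : ((2 * c' + 1 : ℕ) : ℝ) ≤ 7 * (C + ℓ) / κ := by
        have h1 := pg_ceil hκ a0
        rw [hc']
        refine h1.trans (div_le_div_of_nonneg_right ?_ hκ.le)
        rw [hC]
        linarith
      have a2 : (1 : ℝ) ≤ 7 * (C + ℓ) / κ := by
        rw [le_div_iff₀ hκ, hC]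
        linarith
      exact (pow_le_pow_left₀ (Nat.cast_nonneg _) a1 _).trans
        (pow_le_pow_right₀ a2 (pg_card_places K))
    have e4 : (lab.card : ℝ) ≤ C * (5 / κ) ^ (2 * ℓ) *
        (7 * (C + ℓ) / κ) ^ (Module.finrank ℚ K) * (T.card : ℝ) := by
      rw [e1]
      push_cast
      push_cast at e2 e3
      have hGC : (G.card : ℝ) ≤ C := by
        rw [hC]
        linarith
      have hT0 : (0 : ℝ) ≤ T.card := Nat.cast_nonneg _
      calc (G.card : ℝ) * ((2 * c + 1 : ℝ) ^ (supp u).card *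
            ((2 * c' + 1 : ℝ) ^ Fintype.card (InfinitePlace K) * T.card))
          = ((G.card : ℝ) * (2 * c + 1 : ℝ) ^ (supp u).card) *
            (2 * c' + 1 : ℝ) ^ Fintype.card (InfinitePlace K) * T.card := by ring
        _ ≤ (C * (5 / κ) ^ (2 * ℓ)) * (7 * (C + ℓ) / κ) ^ (Module.finrank ℚ K) * T.card := by
            have hC0 : 0 ≤ C := hG0.trans hGC
            have h5 : (0 : ℝ) ≤ (5 / κ) ^ (2 * ℓ) := Real.rpow_nonneg (by positivity) _
            refine mul_le_mul_of_nonneg_right ?_ hT0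
            refine mul_le_mul ?_ e3 (by positivity) (mul_nonneg hC0 h5)
            exact mul_le_mul hGC e2 (by positivity) hC0
    exact_mod_cast e4.trans hcard
  have hmaps : ∀ j ∈ range (H + 1), f j ∈ lab := by
    intro j hj
    rw [Finset.mem_range] at hj
    have hjN : (j : ℝ) ≤ N := by
      have : j ≤ N := by omega
      exact_mod_cast this
    rw [hf, hlab]
    rw [Finset.mem_product, Finset.mem_product, Finset.mem_product]
    refine ⟨hbG j, ?_, ?_, ?_⟩
    · rw [Finset.mem_pi]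
      intro p hp
      rw [hc]
      exact phi_range κ hκ N hN _
    · rw [Fintype.mem_piFinset]
      intro v
      rw [hc']
      exact pg_range hκ (harch j v)
    · refine hT (ξf j) (hξ j).ne0 fun v => ?_
      have h1 := harch j v
      have h2 : |(j : ℝ) * Real.log (v u) / N| ≤ |Real.log (v u)| := by
        rw [abs_div, abs_mul, Nat.abs_cast, Nat.abs_cast, div_le_iff₀ hN0, mul_comm]
        exact mul_le_mul_of_nonneg_left hjN (abs_nonneg _)
      have h3 : Real.log (v (ξf j)) = (Real.log (v (ξf j)) - j * Real.log (v u) / N) +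
          j * Real.log (v u) / N := by ring
      rw [h3]
      refine (abs_add_le _ _).trans ?_
      have h4 : C₀ ≤ C := by
        rw [hC]
        linarith
      linarith
  have hlt : lab.card < (range (H + 1)).card := by
    rw [Finset.card_range]
    omega
  obtain ⟨i, hi, j, hj, hij, hfij⟩ := Finset.exists_ne_map_eq_of_card_lt_of_maps_to hlt hmaps
  -- we may suppose `i < j`
  have key : ∀ i j : ℕ, i < j → j ≤ H → f i = f j →
      ∃ (h : ℕ) (x y : K), 1 ≤ h ∧ h ≤ H ∧ x ≠ 0 ∧ y ≠ 0 ∧ cl x = cl y ∧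
      (∀ p, p ∉ supp u → kp p x = kp p y) ∧
      (∀ p, |(h : ℝ) * (kp p u : ℝ) - N * ((kp p x : ℝ) - (kp p y : ℝ))| ≤ κ * N) ∧
      (∀ v : InfinitePlace K,
        |(h : ℝ) * Real.log (v u) - N * (Real.log (v x) - Real.log (v y))| ≤ κ * N) := by
    intro i j hij hjH hfij
    rw [hf] at hfij
    simp only [Prod.mk.injEq] at hfij
    obtain ⟨hb, hφ, hω, hγ⟩ := hfij
    have hh : ((j - i : ℕ) : ℝ) = j - i := by
      rw [Nat.cast_sub hij.le]
    have hzero : ∀ (p : HeightOneSpectrum (𝓞 K)), p ∉ supp u → kp p u = 0 := by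
      intro p hp
      by_contra h
      exact hp ((mem_supp hu p).2 h)
    refine ⟨j - i, ξf j, ξf i, by omega, by omega, (hξ j).ne0, (hξ i).ne0, hγ.symm, ?_, ?_, ?_⟩
    · intro p hp
      have h0 := hzero p hp
      rw [(hξ j).val p, (hξ i).val p, hkpj, hkpj, h0, mul_zero, mul_zero, hb]
    · intro p
      have h1 : (N : ℝ) * ((kp p (ξf j) : ℝ) - (kp p (ξf i) : ℝ)) =
          (j - i : ℝ) * (kp p u : ℝ) -
            ((gr N (kp p (u ^ j)) : ℝ) - (gr N (kp p (u ^ i)) : ℝ)) := by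
        rw [(hξ j).val p, (hξ i).val p, hb]
        unfold gr
        have a1 : (kp p (u ^ j) : ℝ) = j * (kp p u : ℝ) := by
          rw [hkpj]
          push_cast
          ring
        have a2 : (kp p (u ^ i) : ℝ) = i * (kp p u : ℝ) := by
          rw [hkpj]
          push_cast
          ring
        push_cast
        rw [a1, a2]
        ring
      rw [hh, h1]
      have h2 : (j - i : ℝ) * (kp p u : ℝ) - ((j - i : ℝ) * (kp p u : ℝ) -
            ((gr N (kp p (u ^ j)) : ℝ) - (gr N (kp p (u ^ i)) : ℝ))) =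
          (gr N (kp p (u ^ j)) : ℝ) - (gr N (kp p (u ^ i)) : ℝ) := by ring
      rw [h2]
      by_cases hp : p ∈ supp u
      · have h3 := congrFun (congrFun hφ p) hp
        exact pg_floor (mul_pos hκ hN0) h3.symm
      · have h0 := hzero p hp
        rw [hkpj, hkpj, h0, mul_zero, mul_zero, sub_self, abs_zero]
        positivity
    · intro v
      have h3 := congrFun hω v
      have h4 := pg_floor hκ h3.symm
      have h5 : ((j - i : ℕ) : ℝ) * Real.log (v u) -
          N * (Real.log (v (ξf j)) - Real.log (v (ξf i))) =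
          -(N * ((Real.log (v (ξf j)) - j * Real.log (v u) / N) -
            (Real.log (v (ξf i)) - i * Real.log (v u) / N))) := by
        rw [hh]
        field_simp
        ring
      rw [h5, abs_neg, abs_mul, Nat.abs_cast, mul_comm]
      exact mul_le_mul_of_nonneg_right h4 hN0.le
  rw [Finset.mem_range] at hi hj
  rcases lt_or_gt_of_ne hij with h | h
  · exact key i j h (by omega) hfij
  · exact key j i h (by omega) hfij.symm

end AbcRadK
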