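import Pool.Agent.Work.MP_a793bb_nt.RadK.HtEq

/-!
# Points of small height

Proof. `triple_le_logHeight₁` gives `hh t ≤ logHeight₁ t + C₁`, and `two_pow_le_height`
(`mulHeight₁ (1 - x) ≤ 2 ^ totalWeight K * mulHeight₁ x`, in `SmallRad.lean`) for `x = 1 - t` gives
`logHeight₁ t ≤ logHeight₁ (1 - t) + totalWeight K * log 2`. If `(1 - t) ^ i = 1` with `i > 0` then all
absolute values of `1 - t` are `1`, so `logHeight₁ (1 - t) = 0` (`ht_eq`, or
`i * logHeight₁ x = logHeight₁ (x ^ i) = logHeight₁ 1 = 0`).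
-/

set_option autoImplicit false

namespace AbcRadK

open Finset AbcRad Pool.Agent.Work.MP_a793bb_nt Pool.Agent.Work.MP_a793bb_nt.BPlus NumberField
  IsDedekindDomain Height

theorem hh_of_root (K : Type*) [Field K] [NumberField K] : ∃ C : ℝ, 0 ≤ C ∧
    ∀ (t : K) (i : ℕ), 0 < i → (1 - t) ^ i = 1 → hh t ≤ C := by
  obtain ⟨C₁, hC₁, h⟩ := triple_le_logHeight₁ (K := K)
  refine ⟨C₁ + totalWeight K * Real.log 2, by positivity, fun t i hi ht => ?_⟩
  have h1 := h t
  have h2 := two_pow_le_height (1 - t)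
  have h3 : (1 : K) - (1 - t) = t := by ring
  rw [h3] at h2
  have h4 : logHeight₁ (1 - t) = 0 := by
    have h5 : logHeight₁ ((1 - t) ^ i) = i * logHeight₁ (1 - t) := logHeight₁_pow _ _
    rw [ht, logHeight₁_one] at h5
    have h6 : (i : ℝ) ≠ 0 := by exact_mod_cast hi.ne'
    exact (mul_eq_zero.mp h5.symm).resolve_left h6
  have h7 : logHeight₁ t ≤ totalWeight K * Real.log 2 + logHeight₁ (1 - t) := by
    rw [logHeight₁_eq_log_mulHeight₁, logHeight₁_eq_log_mulHeight₁]
    have h8 := Real.log_le_log (mulHeight₁_pos _) h2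
    rw [Real.log_mul (by positivity) (mulHeight₁_pos _).ne', Real.log_pow] at h8
    exact h8
  change logHeight ![t, 1 - t, -1] ≤ _
  linarith

end AbcRadK
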