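import Pool.Agent.Work.MP_a793bb_nt.RadE.EffFin
import Pool.Agent.Work.MP_a793bb_nt.RadE.EffInf
import Pool.Agent.Work.MP_a793bb_nt.RadE.EffNum
import Pool.Agent.Work.MP_a793bb_nt.RadE.EffPig
import Pool.Agent.Work.MP_a793bb_nt.RadE.EffRoot
import Pool.Agent.Work.MP_a793bb_nt.RadK.CostK
import Pool.Agent.Work.MP_a793bb_nt.RadK.InfType
import Pool.Agent.Work.MP_a793bb_nt.RadK.SideTypeK

/-!
# An effective bound for the height

Proof. `C₁` from `exists_pairP`, `C₂` from `exists_num` (`d = finrank`, `C = C₁`), `C₃` from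
`hh_of_root`, `C = C₂ + C₃ + 1`. Suppose `hh t > exp (C ℓ ^ 2)`, `q = hh t / 2 ≥ exp (C₂ ℓ ^ 2)`,
`u = 1 - t = - sOf 0 t`, `1 - u = t = 1 + sOf 0 t`. `N, H` from `exists_num`. `u ^ i ≠ 1` because
`hh t > exp C₃ ≥ C₃`. `logHeight₁ u = logHeight₁ (sOf 0 t) ≤ hs (sOf 0 t) = hh t = 2 q`
(`logHeight₁_neg`, `logHeight₁_le_hs`, `hs_sOf`), `logHeight₁ t ≤ hh t` (`logHeight₁_le_triple`),
`lsum (supp u) ≤ Rs (Ip t) ≤ ℓ` (as in `CoverK`: `supp_sOf`, `zs_sum`).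
If `LP t univ < q / 2`, `inf_type` with `Q = q < hs (sOf 0 t) = 2 q` and `s = sOf 0 t` gives `v` with
`v (1 + s) ≤ 2 exp (-(q / (2 d)))`, and `v (u - 1) = v (-t) = v (1 + s)`; apply `eff_inf`.
Otherwise `∑_{p ∈ Zp t} kp p t lN p ≥ q / 2` (`LP_univ_eq`), and `#Zp t * log 2 ≤ Rs (Zp t) ≤ ℓ`
(`Zp_subset_Ip`), so if all the terms were less than `q / (3 ℓ)` the sum would be less than
`(ℓ / log 2) q / (3 ℓ) < q / 2` (the set is not empty, `log 2 > 2 / 3`). So some `p ∈ Zp t` has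
`kp p t lN p ≥ q / (3 ℓ)`, and `lN p ≤ Rs (Zp t) ≤ ℓ`; apply `eff_fin`.
-/

set_option autoImplicit false

namespace AbcRadK

open Finset AbcRad Pool.Agent.Work.MP_a793bb_nt Pool.Agent.Work.MP_a793bb_nt.BPlus NumberField
  IsDedekindDomain Height

open Classical in
private theorem lsum_supp_le {K : Type*} [Field K] [NumberField K] {t : K} (h0 : t ≠ 0)
    (h1 : t ≠ 1) : lsum (supp (1 - t)) ≤ Rs (Ip t) := by
  have e : -sOf 0 t = 1 - t := by
    change -(t - 1) = 1 - t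
    ring
  have h2 := supp_sOf h0 h1 0
  rw [e] at h2
  have h3 := zs_sum h0 h1
  have h4 := lsum_nonneg (zs 0 t)
  have h5 : lsum (zs (0 + 1) t ∪ zs (0 + 2) t) ≤ lsum (zs 1 t) + lsum (zs 2 t) := by
    unfold lsum
    rw [← Finset.sum_union_inter]
    exact le_add_of_nonneg_right (Finset.sum_nonneg fun p _ => (lN_pos p).le)
  rw [h2]
  linarith

theorem eff_height (K : Type*) [Field K] [NumberField K] : ∃ C : ℝ, 1 ≤ C ∧
    ∀ (ℓ : ℝ) (t : K), 1 ≤ ℓ → t ≠ 0 → t ≠ 1 → Rs (Ip t) ≤ ℓ → hh t ≤ Real.exp (C * ℓ ^ 2) := by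
  obtain ⟨C₁, hC₁, hP⟩ := exists_pairP K
  have hd1 : 1 ≤ Module.finrank ℚ K := Module.finrank_pos
  obtain ⟨C₂, hC₂, hnum⟩ := exists_num (Module.finrank ℚ K) hd1 C₁ hC₁
  obtain ⟨C₃, hC₃, hroot⟩ := hh_of_root K
  refine ⟨C₂ + C₃ + 1, by linarith, fun ℓ t hℓ h0 h1 hR => ?_⟩
  by_contra hcon
  rw [not_le] at hcon
  obtain ⟨q, hq⟩ : ∃ q : ℝ, q = hh t / 2 := ⟨_, rfl⟩
  have hℓ2 : 1 ≤ ℓ ^ 2 := one_le_pow₀ hℓ
  have hexp : 2 * Real.exp (C₂ * ℓ ^ 2) ≤ Real.exp ((C₂ + C₃ + 1) * ℓ ^ 2) := by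
    have e1 : (C₂ + C₃ + 1) * ℓ ^ 2 = C₂ * ℓ ^ 2 + (C₃ + 1) * ℓ ^ 2 := by ring
    rw [e1, Real.exp_add, mul_comm]
    refine mul_le_mul_of_nonneg_left ?_ (Real.exp_pos _).le
    have h2 : (1 : ℝ) ≤ (C₃ + 1) * ℓ ^ 2 := by nlinarith
    have h3 := Real.add_one_le_exp ((C₃ + 1) * ℓ ^ 2)
    linarith
  have hqe : Real.exp (C₂ * ℓ ^ 2) ≤ q := by
    rw [hq]
    linarith
  have hq0 : 0 < q := (Real.exp_pos _).trans_le hqe
  have hqh : hh t = 2 * q := by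
    rw [hq]
    ring
  obtain ⟨N, H, hNH⟩ := hnum ℓ q hℓ hqe
  have hu : (1 : K) - t ≠ 0 := sub_ne_zero.mpr (Ne.symm h1)
  have hu1 : (1 : K) - (1 - t) = t := by ring
  have hrt : ∀ i : ℕ, 0 < i → (1 - t) ^ i ≠ 1 := by
    intro i hi h
    have h2 := hroot t i hi h
    have h3 : C₃ < Real.exp ((C₂ + C₃ + 1) * ℓ ^ 2) := by
      have h4 := Real.add_one_le_exp ((C₂ + C₃ + 1) * ℓ ^ 2)
      nlinarith
    linarith
  have hr : lsum (supp (1 - t)) ≤ ℓ := (lsum_supp_le h0 h1).trans hR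
  have hs0 : (1 : K) - t = -sOf 0 t := by
    change 1 - t = -(t - 1)
    ring
  have hs1 : 1 + sOf 0 t = t := by
    change 1 + (t - 1) = t
    ring
  have hH : logHeight₁ (1 - t) ≤ 2 * q := by
    rw [hs0, logHeight₁_neg, ← hqh, ← hs_sOf h0 h1 0]
    exact logHeight₁_le_hs _
  have hH1 : logHeight₁ (1 - (1 - t)) ≤ 2 * q := by
    rw [hu1, ← hqh]
    exact logHeight₁_le_triple t
  by_cases hLP : LP t Set.univ < q / 2
  · obtain ⟨v, hv⟩ := inf_type q hNH.hq (sOf 0 t) (by rw [hs1]; exact h0)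
      (by rw [hs_sOf h0 h1 0, hqh]; linarith) (by rw [hs1]; exact hLP)
    refine eff_inf C₁ ℓ q hC₁ hP hℓ N H hNH (1 - t) hu hrt hr hH v ?_
    have e : (1 : K) - t - 1 = -(1 + sOf 0 t) := by
      rw [hs1]
      ring
    rw [e, show v (-(1 + sOf 0 t)) = v (1 + sOf 0 t) from v.1.map_neg _]
    exact hv
  · rw [not_lt, LP_univ_eq h0] at hLP
    have hZ : Rs (Zp t) ≤ ℓ := (Rs_mono (finite_Ip h0 h1) (Zp_subset_Ip t)).trans hR
    rw [Rs_eq_lsum h0] at hZ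
    have hlog2 : (2 : ℝ) / 3 < Real.log 2 := by
      have := Real.log_two_gt_d9
      linarith
    have hcard : ((finite_Zp h0).toFinset.card : ℝ) * Real.log 2 ≤ ℓ := by
      refine le_trans ?_ hZ
      rw [← nsmul_eq_mul, ← Finset.sum_const]
      refine Finset.sum_le_sum fun p _ => ?_
      exact Real.log_le_log (by norm_num) (two_le_Np p)
    obtain ⟨p, hp, hpp⟩ : ∃ p ∈ (finite_Zp h0).toFinset,
        q / (3 * ℓ) ≤ (kp p t : ℝ) * lN p := by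
      by_contra hno
      push Not at hno
      have h2 : ∑ p ∈ (finite_Zp h0).toFinset, (kp p t : ℝ) * lN p ≤
          ∑ p ∈ (finite_Zp h0).toFinset, q / (3 * ℓ) :=
        Finset.sum_le_sum fun p hp => (hno p hp).le
      rw [Finset.sum_const, nsmul_eq_mul] at h2
      have h3 : ((finite_Zp h0).toFinset.card : ℝ) * (q / (3 * ℓ)) < q / 2 := by
        have h4 : ((finite_Zp h0).toFinset.card : ℝ) < 3 / 2 * ℓ := by
          by_contra h5
          rw [not_lt] at h5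
          nlinarith
        have h6 : q / 2 = 3 / 2 * ℓ * (q / (3 * ℓ)) := by
          field_simp
        rw [h6]
        exact mul_lt_mul_of_pos_right h4 (by positivity)
      linarith
    have hpl : lN p ≤ ℓ := by
      refine le_trans ?_ hZ
      exact Finset.single_le_sum (f := fun p => lN p) (fun p _ => (lN_pos p).le) hp
    exact eff_fin C₁ ℓ q hC₁ hP hℓ N H hNH (1 - t) hu (by rw [hu1]; exact h0) hrt hr hH hH1 p hpl
      (by rw [hu1]; exact hpp)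

end AbcRadK
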