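import Pool.Agent.Work.MP_a793bb_nt.RadE.FinalDefsE
import Pool.Agent.Work.MP_a793bb_nt.RadE.EffK
import Pool.Agent.Work.MP_a793bb_nt.RadK.FinalK
import Pool.Agent.Work.MP_a793bb_nt.RadL.FinL

/-!
# All points with bounded radical

Proof. `C` from `eff_height`. Let `η > 0`. For large `R`, say `R ≥ R₁ = R₁(η) ≥ exp 1`,
`exp (C (log R) ^ 2) ≤ d exp (R ^ (η / 2))`; then `abcPts K R = radPts K R (exp (R ^ (η / 2)))`: for
`(a : b : c)` in the left set and `t = - a / c`, `Rs (Ip t) = d rad a b c ≤ log R`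
(`rad_affine`, `rad_eq`), `hh t = d ht a b c` (`logHeight_affine`, definition of `ht`), so
`ht a b c ≤ exp (R ^ (η / 2))` by `eff_height` (`ℓ = log R ≥ 1`). (`abc_sub` states this for
`R ≥ R₁`.) Upper bound: `η = ε` in `upper_radPts` for `R ≥ max R₁ 2`; for `1 ≤ R ≤ max R₁ 2` the set is
contained in `abcPts K (max R₁ 2)`, finite of some cardinality `m ≤ m R ^ (2 / 3 + ε)`. Lower bound:
`η = 1`, `RadL.lower_radPts_sharp` (finiteness of `radPts K R _` for all `R`: it is contained in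
`abcPts K (max R 2)`).
-/

set_option autoImplicit false

namespace Pool.Agent.Work.MP_a793bb_nt

open NumberField IsDedekindDomain Height LinearAlgebra.Projectivization AbcRadK

theorem abc_sub (K : Type*) [Field K] [NumberField K] (η : ℝ) (hη : 0 < η) :
    ∃ R₁ : ℝ, ∀ R : ℝ, R₁ ≤ R → abcPts K R ⊆ radPts K R (Real.exp (R ^ (η / 2))) := by
  obtain ⟨C, hC1, hC⟩ := eff_height K
  have hd0 : (0 : ℝ) < (Module.finrank ℚ K : ℝ) := finrank_pos'
  have hd1 : (1 : ℝ) ≤ (Module.finrank ℚ K : ℝ) := by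
    have : 0 < Module.finrank ℚ K := Module.finrank_pos
    exact_mod_cast this
  have hlo := isLittleO_log_rpow_rpow_atTop (s := η / 2) 2 (by positivity)
  have hev := hlo.bound (show (0 : ℝ) < 1 / C by positivity)
  obtain ⟨R₂, hR₂⟩ := Filter.eventually_atTop.1 hev
  refine ⟨max R₂ (Real.exp 1), fun R hR => ?_⟩
  have h1 : R₂ ≤ R := (le_max_left _ _).trans hR
  have h2 : Real.exp 1 ≤ R := (le_max_right _ _).trans hR
  have hR0 : 0 < R := (Real.exp_pos 1).trans_le h2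
  have hℓ : 1 ≤ Real.log R := (Real.le_log_iff_exp_le hR0).mpr h2
  have h3 := hR₂ R h1
  have h4 : C * Real.log R ^ 2 ≤ R ^ (η / 2) := by
    rw [Real.norm_of_nonneg (by positivity), Real.norm_of_nonneg (by positivity),
      Real.rpow_two, one_div, ← div_eq_inv_mul, le_div_iff₀ (by linarith)] at h3
    linarith
  rintro P ⟨a, b, c, hne, rfl, habc, hprod, hrad⟩
  refine ⟨a, b, c, hne, rfl, habc, hprod, hrad, ?_⟩
  have hc : c ≠ 0 := right_ne_zero_of_mul hprod
  have hb : b ≠ 0 := right_ne_zero_of_mul (left_ne_zero_of_mul hprod)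
  have ha : a ≠ 0 := left_ne_zero_of_mul (left_ne_zero_of_mul hprod)
  have h5 : Rs (Ip (-a / c)) ≤ Real.log R := by
    rw [Real.le_log_iff_exp_le hR0]
    refine le_trans (le_of_eq ?_) hrad
    rw [rad_affine hc habc, mul_div_cancel₀ _ hd0.ne']
  have h6 := hC (Real.log R) (-a / c) hℓ (affine_ne_zero ha hc) (affine_ne_one hb hc habc) h5
  have h7 : ht a b c = BPlus.hh (-a / c) / (Module.finrank ℚ K : ℝ) := by
    rw [ht, logHeight_affine hc habc]
    rfl
  rw [h7]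
  calc BPlus.hh (-a / c) / (Module.finrank ℚ K : ℝ) ≤ BPlus.hh (-a / c) :=
        div_le_self (BPlus.hh_nonneg _) hd1
    _ ≤ Real.exp (C * Real.log R ^ 2) := h6
    _ ≤ Real.exp (R ^ (η / 2)) := Real.exp_le_exp.mpr h4

theorem abcPts_mono (K : Type*) [Field K] [NumberField K] {R S : ℝ} (h : R ≤ S) :
    abcPts K R ⊆ abcPts K S := by
  rintro P ⟨a, b, c, h1, h2, h3, h4, h5⟩
  exact ⟨a, b, c, h1, h2, h3, h4, h5.trans h⟩

theorem upper_abcPts (K : Type*) [Field K] [NumberField K] (ε : ℝ) (hε : 0 < ε) :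
    ∃ C : ℝ, ∀ R : ℝ, 1 ≤ R → (abcPts K R).Finite ∧
      ((abcPts K R).ncard : ℝ) ≤ C * R ^ (2 / 3 + ε) := by
  obtain ⟨R₁, hR₁⟩ := abc_sub K ε hε
  obtain ⟨C, hC⟩ := upper_radPts K ε hε
  have hfin : ∀ R : ℝ, (abcPts K R).Finite := by
    intro R
    have h1 : abcPts K (max R (max R₁ 2)) ⊆ _ := hR₁ (max R (max R₁ 2))
      ((le_max_left _ _).trans (le_max_right _ _))
    exact ((hC (max R (max R₁ 2)) ((le_max_right _ _).trans (le_max_right _ _))).1.subset
      h1).subset (abcPts_mono K (le_max_left _ _))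
  refine ⟨max C (abcPts K (max R₁ 2)).ncard, fun R hR => ⟨hfin R, ?_⟩⟩
  have hp : 1 ≤ R ^ (2 / 3 + ε) := Real.one_le_rpow hR (by positivity)
  rcases le_total R (max R₁ 2) with h | h
  · have h1 : ((abcPts K R).ncard : ℝ) ≤ (abcPts K (max R₁ 2)).ncard := by
      exact_mod_cast Set.ncard_le_ncard (abcPts_mono K h) (hfin _)
    calc ((abcPts K R).ncard : ℝ) ≤ (abcPts K (max R₁ 2)).ncard * 1 := by linarith
      _ ≤ max C (abcPts K (max R₁ 2)).ncard * R ^ (2 / 3 + ε) :=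
        mul_le_mul (le_max_right _ _) hp zero_le_one (le_max_of_le_right (Nat.cast_nonneg _))
  · obtain ⟨h1, h2⟩ := hC R ((le_max_right _ _).trans h)
    have h3 : ((abcPts K R).ncard : ℝ) ≤ ((radPts K R (Real.exp (R ^ (ε / 2)))).ncard : ℝ) := by
      exact_mod_cast Set.ncard_le_ncard (hR₁ R ((le_max_left _ _).trans h)) h1
    refine (h3.trans h2).trans (mul_le_mul_of_nonneg_right (le_max_left _ _) (by linarith))

theorem lower_abcPts (K : Type*) [Field K] [NumberField K] :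
    ∃ c R₀ : ℝ, 0 < c ∧ ∀ R : ℝ, R₀ ≤ R →
      c * R ^ (2 / 3 : ℝ) ≤ ((abcPts K R).ncard : ℝ) := by
  obtain ⟨C, hC⟩ := upper_abcPts K 1 one_pos
  have hfin : ∀ R : ℝ, (abcPts K R).Finite := fun R =>
    (hC (max R 1) (le_max_right _ _)).1.subset (abcPts_mono K (le_max_left _ _))
  have hsub : ∀ R H : ℝ, radPts K R H ⊆ abcPts K R := by
    rintro R H P ⟨a, b, c, h1, h2, h3, h4, h5, _⟩
    exact ⟨a, b, c, h1, h2, h3, h4, h5⟩
  obtain ⟨c, R₀, hc, h⟩ := RadL.lower_radPts_sharp K 1 one_pos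
    (fun R => (hfin R).subset (hsub R _))
  refine ⟨c, R₀, hc, fun R hR => (h R hR).trans ?_⟩
  exact_mod_cast Set.ncard_le_ncard (hsub R _) (hfin R)

end Pool.Agent.Work.MP_a793bb_nt
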