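import Pool.Agent.Work.MP_a793bb_nt.Defs

/-!
# The set of all points with bounded radical
-/

set_option autoImplicit false

namespace Pool.Agent.Work.MP_a793bb_nt

open NumberField LinearAlgebra.Projectivization

/-- The points `P = (a : b : c)` of the projective plane over `K` with `a + b + c = 0`,
`abc ≠ 0` and `exp (d * rad(P)) ≤ R` (`d` the degree of `K`: the product of the norms of the
primes in `I_K(P)` is at most `R`). -/
def abcPts (K : Type*) [Field K] [NumberField K] (R : ℝ) : Set (ℙ K (Fin 3 → K)) :=
  {P | ∃ (a b c : K) (h : ![a, b, c] ≠ 0), P = Projectivization.mk K ![a, b, c] h ∧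
    a + b + c = 0 ∧ a * b * c ≠ 0 ∧ Real.exp ((Module.finrank ℚ K : ℝ) * rad a b c) ≤ R}

end Pool.Agent.Work.MP_a793bb_nt
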