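import Mathlib

/-!
# The parameters `I, J` for a finite place

Proof. Let `J0 = ⌈864 ℓ⌉₊` (so `864 ℓ ≤ J0 ≤ 865 ℓ`), `μ = 736 d J0`, `A = a lp`, `S0 = s lp`; then
`μ ≤ S0 ≤ μ + lp ≤ 736 d J0 + ℓ ≤ 737 d J0` and `S0 ≤ 637505 d ℓ`. Put `J = n / J0`, `I = a / (s J)`
(natural divisions). `n / J0 ≥ 18`, so `J ≥ 8`; `J + 1 > n / J0 ≥ 2 (√(2 q) + 9)`.
`2 s J ≤ a`: `2 S0 J ≤ 2 S0 n / J0 ≤ 1474 d N ≤ 1474 q / (30000 d ℓ) ≤ q / (3 ℓ) ≤ A`. So `I ≥ 2`,
`s I J ≤ a` and `s I J > a - s J ≥ a / 2`; hence `I J S0 ≥ A / 2`. `n < J0 (J + 1) ≤ 2 J0 J`, so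
`n I S0 ≤ 2 J0 A`, `n I ≤ 2 J0 A / μ = A / (368 d)`. `I ≤ J`, because
`I J ≤ a / s = A / S0 ≤ 4 q / 736 ≤ J ^ 2`. With `log x ≤ x`, `log 2 ≤ 0.7`:
`2 * 12 d (log (n I) + n I log 2) ≤ 40.8 d n I`, `2 I (2 n) ≤ 4 d n I`, together at most
`44.8 A / 368 ≤ 0.122 A`; `2 (I + J) 9 q / n ≤ 36 q J / n ≤ 36 q / J0 ≤ 108 ℓ A / (864 ℓ) = A / 8`
(`q ≤ 3 ℓ A`, `J ≤ n / J0`). The sum is less than `A / 2`.
-/

set_option autoImplicit false

namespace AbcRadK

theorem fin_params (d : ℕ) (hd : 1 ≤ d) (ℓ q lp : ℝ) (hℓ : 1 ≤ ℓ) (hq : 0 < q) (hlp : 0 < lp)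
    (hlpℓ : lp ≤ ℓ) (a s n N : ℕ) (hs : s = ⌈736 * d * (⌈864 * ℓ⌉₊ : ℝ) / lp⌉₊)
    (ha : q / (3 * ℓ) ≤ a * lp) (ha2 : a * lp ≤ 4 * q) (hnN : n ≤ N)
    (hN : (N : ℝ) ≤ q / (30000 * d ^ 2 * ℓ))
    (hn : 2 * ((⌈864 * ℓ⌉₊ : ℝ) + 2304 * d) * (√(2 * q) + 9) ≤ (n : ℝ)) :
    1 ≤ s ∧ (s : ℝ) * lp ≤ 637505 * d * ℓ ∧ ∃ I J : ℕ, 8 ≤ J ∧ J ≤ n ∧ 2 ≤ I ∧ s * (I * J) ≤ a ∧
      2 * (12 * d * (Real.log ((n * I : ℕ) : ℝ) + (n * I : ℕ) * Real.log 2) +
        I * (2 * n + 9 * q / n) + J * (9 * q / n)) < (I * J : ℕ) * (s * lp) := by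
  have hd1 : (1 : ℝ) ≤ d := by exact_mod_cast hd
  have hd0 : (0 : ℝ) < d := by linarith
  obtain ⟨J0, hJ0⟩ : ∃ J0 : ℕ, J0 = ⌈864 * ℓ⌉₊ := ⟨_, rfl⟩
  rw [← hJ0] at hs hn
  have hJl : 864 * ℓ ≤ (J0 : ℝ) := by
    rw [hJ0]
    exact Nat.le_ceil _
  have hJu : (J0 : ℝ) ≤ 865 * ℓ := by
    rw [hJ0]
    have := Nat.ceil_lt_add_one (show 0 ≤ 864 * ℓ by linarith)
    linarith
  have hJ1 : (864 : ℝ) ≤ J0 := by linarith
  have hJ00 : (0 : ℝ) < J0 := by linarith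
  have hJN : 0 < J0 := by exact_mod_cast hJ00
  obtain ⟨μ, hμ⟩ : ∃ μ : ℝ, μ = 736 * d * (J0 : ℝ) := ⟨_, rfl⟩
  have hμ0 : 0 < μ := by rw [hμ]; positivity
  obtain ⟨S0, hS0⟩ : ∃ S0 : ℝ, S0 = (s : ℝ) * lp := ⟨_, rfl⟩
  have hS1 : μ ≤ S0 := by
    rw [hS0, hs, ← hμ]
    have := Nat.le_ceil (μ / lp)
    rw [div_le_iff₀ hlp] at this
    exact this
  have hS2 : S0 ≤ 737 * d * J0 := by
    have h1 : S0 ≤ μ + lp := by
      rw [hS0, hs, ← hμ]
      have := (Nat.ceil_lt_add_one (show 0 ≤ μ / lp by positivity)).le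
      have h2 := mul_le_mul_of_nonneg_right this hlp.le
      rw [add_mul, div_mul_cancel₀ _ hlp.ne', one_mul] at h2
      exact h2
    have h3 : lp ≤ d * J0 := by nlinarith
    rw [hμ] at h1
    linarith
  have hs1 : 1 ≤ s := by
    rw [hs]
    exact Nat.one_le_iff_ne_zero.mpr (by
      have : 0 < ⌈736 * (d : ℝ) * (J0 : ℝ) / lp⌉₊ := Nat.ceil_pos.mpr (by positivity)
      omega)
  have hs0 : (0 : ℝ) < s := by exact_mod_cast hs1
  refine ⟨hs1, ?_, ?_⟩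
  · rw [← hS0]
    have : 737 * (d : ℝ) * J0 ≤ 737 * d * (865 * ℓ) := by
      apply mul_le_mul_of_nonneg_left hJu
      positivity
    linarith
  have hsq0 : 0 ≤ √(2 * q) := Real.sqrt_nonneg _
  have hsq : √(2 * q) ^ 2 = 2 * q := Real.sq_sqrt (by linarith)
  have hn2 : 2 * (J0 : ℝ) * (√(2 * q) + 9) ≤ n := by
    refine le_trans ?_ hn
    have h1 : 0 ≤ 2 * (2304 * (d : ℝ)) * (√(2 * q) + 9) := by positivity
    nlinarith
  have hn0 : (0 : ℝ) < n := by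
    have : 0 < 2 * (J0 : ℝ) * (√(2 * q) + 9) := by positivity
    linarith
  obtain ⟨A, hA⟩ : ∃ A : ℝ, A = (a : ℝ) * lp := ⟨_, rfl⟩
  rw [← hA] at ha ha2
  have hA0 : 0 < A := lt_of_lt_of_le (by positivity) ha
  have hqA : q ≤ 3 * ℓ * A := by
    rw [div_le_iff₀ (by positivity)] at ha
    linarith
  -- J
  obtain ⟨J, hJ⟩ : ∃ J : ℕ, J = n / J0 := ⟨_, rfl⟩
  have hJle : (J : ℝ) * J0 ≤ n := by
    have : J * J0 ≤ n := by rw [hJ]; exact Nat.div_mul_le_self _ _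
    exact_mod_cast this
  have hJgt : (n : ℝ) < (J + 1) * J0 := by
    have : n < (J + 1) * J0 := by
      rw [hJ, add_mul, one_mul]
      exact Nat.lt_div_mul_add hJN
    exact_mod_cast this
  have hJbig : 2 * √(2 * q) + 17 < J := by
    have h1 : 2 * (J0 : ℝ) * (√(2 * q) + 9) < (J + 1) * J0 := lt_of_le_of_lt hn2 hJgt
    have h2 : (2 * (√(2 * q) + 9)) * J0 < (J + 1) * J0 := by linarith
    have h3 := lt_of_mul_lt_mul_right h2 hJ00.le
    linarith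
  have hJ17 : (17 : ℝ) < J := by linarith
  have hJnat : 17 < J := by exact_mod_cast hJ17
  have hJpos : (0 : ℝ) < J := by linarith
  have hn2J : (n : ℝ) ≤ 2 * J0 * J := by nlinarith
  have hJn : J ≤ n := by
    rw [hJ]
    exact Nat.div_le_self _ _
  -- s J
  have h2sJ : 2 * (s * J : ℕ) ≤ (a : ℝ) := by
    have h1 : 2 * S0 * J ≤ A := by
      have h2 : (J : ℝ) ≤ N / J0 := by
        rw [le_div_iff₀ hJ00]
        have : (n : ℝ) ≤ N := by exact_mod_cast hnN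
        linarith
      have h3 : 2 * S0 * J ≤ 2 * (737 * d * J0) * (N / J0) :=
        mul_le_mul (by linarith) h2 hJpos.le (by positivity)
      have h4 : 2 * (737 * (d : ℝ) * J0) * (N / J0) = 1474 * d * N := by
        field_simp
        ring
      have h5 : 1474 * (d : ℝ) * N ≤ 1474 * d * (q / (30000 * d ^ 2 * ℓ)) :=
        mul_le_mul_of_nonneg_left hN (by positivity)
      have h6 : 1474 * (d : ℝ) * (q / (30000 * d ^ 2 * ℓ)) ≤ q / (3 * ℓ) := by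
        rw [mul_div_assoc', div_le_div_iff₀ (by positivity) (by positivity)]
        have h7 : 0 < q * ℓ * d := by positivity
        have h8 : q * ℓ * d ≤ q * ℓ * d * d := by nlinarith
        nlinarith
      rw [h4] at h3
      linarith
    rw [hS0, hA] at h1
    push_cast
    have h9 : (2 * ((s : ℝ) * J)) * lp ≤ a * lp := by linarith
    exact le_of_mul_le_mul_right h9 hlp
  have hsJ0 : 0 < s * J := Nat.mul_pos (by omega) (by omega)
  obtain ⟨I, hI⟩ : ∃ I : ℕ, I = a / (s * J) := ⟨_, rfl⟩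
  have hI2 : 2 ≤ I := by
    rw [hI, Nat.le_div_iff_mul_le hsJ0]
    exact_mod_cast h2sJ
  have hIle : s * (I * J) ≤ a := by
    have : I * (s * J) ≤ a := by rw [hI]; exact Nat.div_mul_le_self _ _
    calc s * (I * J) = I * (s * J) := by ring
      _ ≤ a := this
  have hIgt : a < (I + 1) * (s * J) := by
    rw [hI, add_mul, one_mul]
    exact Nat.lt_div_mul_add hsJ0
  have hIleR : (s : ℝ) * (I * J) ≤ a := by exact_mod_cast hIle
  have hIgtR : (a : ℝ) < (I + 1) * (s * J) := by exact_mod_cast hIgt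
  push_cast at h2sJ
  have hhalf : (a : ℝ) / 2 ≤ s * (I * J) := by nlinarith
  have hI0 : (2 : ℝ) ≤ I := by exact_mod_cast hI2
  refine ⟨I, J, by omega, hJn, hI2, hIle, ?_⟩
  have hlhs : A / 2 ≤ (I * J) * (s * lp) := by
    rw [hA]
    have := mul_le_mul_of_nonneg_right hhalf hlp.le
    linarith
  have hIJS : (I * J : ℝ) * S0 ≤ A := by
    rw [hA, hS0]
    have := mul_le_mul_of_nonneg_right hIleR hlp.le
    linarith
  -- I ≤ J
  have hIJ : (I : ℝ) ≤ J := by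
    by_contra hcon
    rw [not_le] at hcon
    have h1 : (J : ℝ) * J ≤ I * J := by nlinarith
    have h2 : (J : ℝ) * J * μ ≤ A := by
      calc (J : ℝ) * J * μ ≤ (I * J) * S0 :=
            mul_le_mul h1 hS1 hμ0.le (by positivity)
        _ ≤ A := hIJS
    have h3 : 1 ≤ μ := by rw [hμ]; nlinarith
    have h4 : (J : ℝ) * J ≤ J * J * μ := by
      have : (0 : ℝ) < J * J := by positivity
      nlinarith
    have h5 : 8 * q < J * J := by nlinarith
    linarith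
  have hnI : (n : ℝ) * I * (368 * d) ≤ A := by
    have h1 : (n : ℝ) * I ≤ 2 * J0 * (I * J) := by nlinarith
    have h2 : 2 * J0 * (I * J) * (368 * (d : ℝ)) = (I * J) * μ := by
      rw [hμ]
      ring
    have h3 : (I * J : ℝ) * μ ≤ A :=
      (mul_le_mul_of_nonneg_left hS1 (by positivity)).trans hIJS
    have h4 := mul_le_mul_of_nonneg_right h1 (show (0 : ℝ) ≤ 368 * d by positivity)
    linarith
  have hnI1 : (1 : ℝ) ≤ n * I := by
    have : (1 : ℝ) ≤ n := by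
      have : 1 ≤ n := by omega
      exact_mod_cast this
    nlinarith
  have hlog : Real.log ((n * I : ℕ) : ℝ) ≤ n * I := by
    push_cast
    have := Real.log_le_sub_one_of_pos (show (0 : ℝ) < n * I by linarith)
    linarith
  have hlog2 : Real.log 2 ≤ 7 / 10 := by
    have := Real.log_two_lt_d9
    linarith
  have t1 : 12 * (d : ℝ) * (Real.log ((n * I : ℕ) : ℝ) + (n * I : ℕ) * Real.log 2) ≤
      204 / 10 * (d * (n * I)) := by
    push_cast at hlog ⊢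
    have h1 : (n : ℝ) * I * Real.log 2 ≤ n * I * (7 / 10) :=
      mul_le_mul_of_nonneg_left hlog2 (by positivity)
    have h2 : Real.log ((n : ℝ) * I) + n * I * Real.log 2 ≤ 17 / 10 * (n * I) := by linarith
    have h3 := mul_le_mul_of_nonneg_left h2 (show (0 : ℝ) ≤ 12 * d by positivity)
    linarith
  have t2 : (I : ℝ) * (2 * n) ≤ 2 * (d * (n * I)) := by
    have : (0 : ℝ) ≤ n * I := by positivity
    nlinarith
  have t3 : ((I : ℝ) + J) * (9 * q / n) ≤ 18 * (3 * ℓ * A) / J0 := by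
    have h1 : ((I : ℝ) + J) * (9 * q / n) ≤ (2 * J) * (9 * q / n) :=
      mul_le_mul_of_nonneg_right (by linarith) (by positivity)
    have h2 : (2 * (J : ℝ)) * (9 * q / n) = 18 * q * (J / n) := by
      field_simp
      ring
    have h3 : (J : ℝ) / n ≤ 1 / J0 := by
      rw [div_le_div_iff₀ hn0 hJ00]
      linarith
    have h4 : 18 * q * (J / n) ≤ 18 * (3 * ℓ * A) * (1 / J0) :=
      mul_le_mul (by linarith) h3 (by positivity) (by positivity)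
    rw [h2] at h1
    calc ((I : ℝ) + J) * (9 * q / n) ≤ 18 * q * (J / n) := h1
      _ ≤ 18 * (3 * ℓ * A) * (1 / J0) := h4
      _ = _ := by ring
  have t4 : 18 * (3 * ℓ * A) / J0 ≤ A / 16 := by
    rw [div_le_iff₀ hJ00]
    have := mul_le_mul_of_nonneg_left hJl (show (0 : ℝ) ≤ A / 16 by positivity)
    linarith
  have t5 : d * (n * I : ℝ) ≤ A / 368 := by
    rw [le_div_iff₀ (by norm_num)]
    linarith
  have e1 : 2 * (12 * d * (Real.log ((n * I : ℕ) : ℝ) + (n * I : ℕ) * Real.log 2) +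
        I * (2 * n + 9 * q / n) + J * (9 * q / n)) =
      2 * (12 * d * (Real.log ((n * I : ℕ) : ℝ) + (n * I : ℕ) * Real.log 2)) +
        2 * (I * (2 * n)) + 2 * (((I : ℝ) + J) * (9 * q / n)) := by ring
  rw [e1]
  push_cast at *
  linarith

end AbcRadK
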