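import Pool.Agent.Work.MP_a793bb_nt.RadE.EffHt
import Pool.Agent.Work.MP_a793bb_nt.RadE.EffDefs
import Pool.Agent.Work.MP_a793bb_nt.RadE.EffFinP
import Pool.Agent.Work.MP_a793bb_nt.RadK.MainFin
import Pool.Agent.Work.MP_a793bb_nt.RadK.ColorM
import Pool.Agent.Work.MP_a793bb_nt.RadK.LabK

/-!
# Contradiction at a finite place

Proof. `κ = 1 / (ℓ + d)`, `lp = lN p`, `a = (kp p (1 - u)).toNat`, so `kp p (1 - u) = a > 0`,
`s = ⌈736 d ⌈864 ℓ⌉₊ / lp⌉₊`. `kp p u = 0` (`kp_zero_of_one_sub`), so `p ∉ supp u`. `a lp ≤ 4 q` by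
`sum_kp_le` for `1 - u`, `T = {p}`. `cl₀` from `exists_color_mod` with `S = {p}`, `m = fun _ => s`
(`s ≥ 1` and `s lp ≤ 637505 d ℓ` by `fin_params`, whose first two conclusions do not depend on
`n`: apply it with `n = N / 1`, `h = 1`); `cl x = (cl₀ x, 0)`,
`T = image of range ⌈exp (s lp)⌉₊`, `#T ≤ exp (s lp) + 1 ≤ 2 exp (637505 d ℓ)`. By `Num.hfin` and
`PairP` (`5 / κ = 5 (ℓ + d)` etc.) there are `h, x, y`. Let `w = x / y`, `n = N / h`, and `I, J` from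
`fin_params` for this `n`. `eff_heights` (with `kp p w = kp p x - kp p y`) gives
`logHeight₁ w⁻¹ ≤ 8 q / n + 1 ≤ 9 q / n` (`n ≤ N ≤ q`) and
`logHeight₁ (u * w⁻¹ ^ n) ≤ 2 n + 9 q / n`. `w⁻¹ = y / x`; `av p (w⁻¹ - 1) ≤ exp (-(s lp))` by
`exists_color_mod` (`kp p x = kp p y`). `av p (u - 1) ≤ exp (-((s I J) lp))` because
`kp p (1 - u) = a ≥ s I J` (`log_av`, `av_neg`). `main_fin` with `τ = u`, `ξ = w⁻¹`, `S = {p}`, `m = s`
contradicts the inequality of `fin_params`.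
-/

set_option autoImplicit false

namespace AbcRadK

open Finset AbcRad Pool.Agent.Work.MP_a793bb_nt Pool.Agent.Work.MP_a793bb_nt.BPlus NumberField
  IsDedekindDomain Height

variable {K : Type*} [Field K] [NumberField K]

/-- Two heights. -/
private theorem ef_heights (ℓ q : ℝ) (hℓ : 1 ≤ ℓ) (N h : ℕ) (u w : K) (hu : u ≠ 0)
    (hw : w ≠ 0) (hr : lsum (supp u) ≤ ℓ) (hH : logHeight₁ u ≤ 2 * q) (hh1 : 1 ≤ h) (hhN : h ≤ N)
    (hNq : (N : ℝ) ≤ q)
    (hsupp : ∀ p, p ∉ supp u → kp p w = 0)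
    (hfin : ∀ p, |(h : ℝ) * (kp p u : ℝ) - N * (kp p w : ℝ)| ≤
      1 / (ℓ + Module.finrank ℚ K) * N)
    (hinf : ∀ v : InfinitePlace K, |(h : ℝ) * Real.log (v u) - N * Real.log (v w)| ≤
      1 / (ℓ + Module.finrank ℚ K) * N) :
    1 ≤ N / h ∧ logHeight₁ w⁻¹ ≤ 9 * q / ((N / h : ℕ) : ℝ) ∧
      logHeight₁ (u * w⁻¹ ^ (N / h)) ≤ 2 * ((N / h : ℕ) : ℝ) + 9 * q / ((N / h : ℕ) : ℝ) := by
  have hd0 : (0 : ℝ) ≤ Module.finrank ℚ K := Nat.cast_nonneg _
  obtain ⟨n, hn⟩ : ∃ n, n = N / h := ⟨_, rfl⟩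
  have hn1 : 1 ≤ n := by
    rw [hn]
    exact Nat.div_pos hhN (by omega)
  have hnN : n ≤ N := by
    rw [hn]
    exact Nat.div_le_self N h
  have hn1' : (1 : ℝ) ≤ n := by exact_mod_cast hn1
  have hnN' : (n : ℝ) ≤ N := by exact_mod_cast hnN
  have hs : 0 < ℓ + (Module.finrank ℚ K : ℝ) := by linarith
  have hκ : 0 < 1 / (ℓ + (Module.finrank ℚ K : ℝ)) := by positivity
  obtain ⟨h1, h2⟩ := eff_heights u w hu hw N h n (1 / (ℓ + Module.finrank ℚ K)) ℓ hκ (by linarith)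
    hh1 hhN hn hr hsupp hfin hinf
  have e1 : 1 / (ℓ + (Module.finrank ℚ K : ℝ)) * (ℓ + (Module.finrank ℚ K : ℝ)) = 1 := by
    field_simp
  have e2 : 2 * (1 / (ℓ + (Module.finrank ℚ K : ℝ))) * n * (ℓ + (Module.finrank ℚ K : ℝ)) =
      2 * n := by
    field_simp
  have h3 : 4 * logHeight₁ u / n ≤ 8 * q / n := by
    apply div_le_div_of_nonneg_right _ (by linarith)
    linarith
  have h4 : 1 ≤ q / n := by
    rw [one_le_div (by linarith)]
    linarith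
  have e3 : 9 * q / n = 8 * q / n + q / n := by ring
  rw [e1] at h1 h2
  rw [e2] at h2
  rw [← hn]
  refine ⟨hn1, ?_, ?_⟩
  · rw [e3]
    linarith
  · rw [e3]
    linarith

theorem eff_fin (C ℓ q : ℝ) (hC : 1 ≤ C) (hP : PairP K C) (hℓ : 1 ≤ ℓ) (N H : ℕ)
    (hnum : Num (Module.finrank ℚ K) C ℓ q N H) (u : K) (hu : u ≠ 0) (hu1 : 1 - u ≠ 0)
    (hroot : ∀ i : ℕ, 0 < i → u ^ i ≠ 1) (hr : lsum (supp u) ≤ ℓ)
    (hH : logHeight₁ u ≤ 2 * q) (hH1 : logHeight₁ (1 - u) ≤ 2 * q)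
    (p : HeightOneSpectrum (𝓞 K)) (hp : lN p ≤ ℓ)
    (hpa : q / (3 * ℓ) ≤ (kp p (1 - u) : ℝ) * lN p) : False := by
  classical
  have hd1 : 1 ≤ Module.finrank ℚ K := Module.finrank_pos
  have hd1' : (1 : ℝ) ≤ (Module.finrank ℚ K : ℝ) := by exact_mod_cast hd1
  have hnq := hnum.hq
  have hq : 0 < q := by linarith
  have hlp : 0 < lN p := lN_pos p
  have hℓ0 : 0 < ℓ := by linarith
  -- the exponent
  have hk : 0 < kp p (1 - u) := by
    have h1 : 0 < q / (3 * ℓ) := by positivity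
    have h2 : (0 : ℝ) < (kp p (1 - u) : ℝ) := by
      by_contra hc
      rw [not_lt] at hc
      have := mul_nonpos_of_nonpos_of_nonneg hc hlp.le
      linarith
    exact_mod_cast h2
  obtain ⟨a, ha⟩ : ∃ a : ℕ, kp p (1 - u) = (a : ℤ) := ⟨(kp p (1 - u)).toNat, by omega⟩
  have hku : kp p u = 0 := kp_zero_of_one_sub hu p hk
  have hps : p ∉ supp u := by
    rw [mem_supp hu]
    exact fun h => h hku
  have ha1 : q / (3 * ℓ) ≤ a * lN p := by
    rw [ha] at hpa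
    exact_mod_cast hpa
  have ha2 : a * lN p ≤ 4 * q := by
    have h1 := sum_kp_le (1 - u) hu1 {p}
    rw [Finset.sum_singleton, ha] at h1
    have h2 : |((a : ℤ) : ℝ)| = a := by
      rw [abs_of_nonneg (by positivity)]
      norm_cast
    rw [h2] at h1
    linarith
  have hNq : (N : ℝ) ≤ q := by
    refine hnum.hN.trans ?_
    rw [div_le_iff₀ (by positivity)]
    have h1 : 1 ≤ (Module.finrank ℚ K : ℝ) ^ 2 := one_le_pow₀ hd1'
    have h2 : 1 ≤ (Module.finrank ℚ K : ℝ) ^ 2 * ℓ := one_le_mul_of_one_le_of_one_le h1 hℓ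
    nlinarith
  obtain ⟨s, hs⟩ : ∃ s : ℕ, s = ⌈736 * (Module.finrank ℚ K : ℝ) * (⌈864 * ℓ⌉₊ : ℝ) / lN p⌉₊ :=
    ⟨_, rfl⟩
  obtain ⟨hs1, hs2, -⟩ := fin_params (Module.finrank ℚ K) hd1 ℓ q (lN p) hℓ hq hlp hp a s (N / 1) N
    hs ha1 ha2 (Nat.div_le_self N 1) hnum.hN (hnum.hn 1 le_rfl hnum.hH1)
  obtain ⟨cl, hcl1, hcl2⟩ := exists_color_mod ({p} : Finset (HeightOneSpectrum (𝓞 K)))
    (fun _ => s) (fun _ _ => hs1)
  have hcl1' : ∀ x, (cl x : ℝ) < Real.exp (s * lN p) := by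
    intro x
    have := hcl1 x
    rwa [Finset.sum_singleton] at this
  -- the pigeonhole principle
  obtain ⟨E, hE⟩ : ∃ E : ℝ, E = Real.exp (s * lN p) := ⟨_, rfl⟩
  obtain ⟨T, hT⟩ : ∃ T : Finset (ℤ × ℤ), T = (Finset.range ⌈E⌉₊).image
    (fun k : ℕ => ((k : ℤ), (0 : ℤ))) := ⟨_, rfl⟩
  have hTc : (T.card : ℝ) ≤ 2 * Real.exp (637505 * (Module.finrank ℚ K : ℝ) * ℓ) := by
    have h1 : T.card ≤ ⌈E⌉₊ := by
      rw [hT]
      exact Finset.card_image_le.trans (by rw [Finset.card_range])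
    have h2 : (T.card : ℝ) ≤ ⌈E⌉₊ := by exact_mod_cast h1
    have hE0 : 0 < E := by
      rw [hE]
      exact Real.exp_pos _
    have h3 : (⌈E⌉₊ : ℝ) < E + 1 := Nat.ceil_lt_add_one hE0.le
    have h4 : E ≤ Real.exp (637505 * (Module.finrank ℚ K : ℝ) * ℓ) := by
      rw [hE]
      exact Real.exp_le_exp.2 hs2
    have h5 : 1 ≤ Real.exp (637505 * (Module.finrank ℚ K : ℝ) * ℓ) := by
      apply Real.one_le_exp
      positivity
    linarith
  have hs0 : 0 < ℓ + (Module.finrank ℚ K : ℝ) := by linarith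
  have hκ0 : 0 < 1 / (ℓ + (Module.finrank ℚ K : ℝ)) := by positivity
  have hκ1 : 1 / (ℓ + (Module.finrank ℚ K : ℝ)) ≤ 1 := by
    rw [div_le_one hs0]
    linarith
  have hN1 : 1 ≤ N := hnum.hH1.trans hnum.hHN
  obtain ⟨h, x, y, hh1, hhH, hx0, hy0, hxy, hxs, hxf, hxi⟩ := hP u ℓ
    (1 / (ℓ + (Module.finrank ℚ K : ℝ))) N H (fun x => ((cl x : ℤ), (0 : ℤ))) T hu hℓ hr hκ0 hκ1
    hN1 hnum.hHN (by
      intro x _ _
      rw [hT, Finset.mem_image]
      refine ⟨cl x, ?_, rfl⟩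
      rw [Finset.mem_range, Nat.lt_ceil, hE]
      exact hcl1' x) (by
      have e1 : 5 / (1 / (ℓ + (Module.finrank ℚ K : ℝ))) = 5 * (ℓ + (Module.finrank ℚ K : ℝ)) := by
        field_simp
      have e2 : 7 * (C + ℓ) / (1 / (ℓ + (Module.finrank ℚ K : ℝ))) =
          7 * (C + ℓ) * (ℓ + (Module.finrank ℚ K : ℝ)) := by
        field_simp
      rw [e1, e2]
      refine le_trans ?_ hnum.hfin
      apply mul_le_mul_of_nonneg_left hTc
      have : 0 ≤ C := by linarith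
      positivity)
  have hhN : h ≤ N := hhH.trans hnum.hHN
  have hw : x / y ≠ 0 := div_ne_zero hx0 hy0
  have hkw : ∀ P, kp P (x / y) = kp P x - kp P y := fun P => kp_div P hx0 hy0
  have hvw : ∀ v : InfinitePlace K, Real.log (v (x / y)) = Real.log (v x) - Real.log (v y) := by
    intro v
    rw [map_div₀, Real.log_div (InfinitePlace.pos_iff.2 hx0).ne' (InfinitePlace.pos_iff.2 hy0).ne']
  obtain ⟨hn1, hw1, hw2⟩ := ef_heights ℓ q hℓ N h u (x / y) hu hw hr hH hh1 hhN hNq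
    (by
      intro P hPs
      rw [hkw, hxs P hPs, sub_self])
    (by
      intro P
      rw [hkw]
      push_cast
      exact hxf P)
    (by
      intro v
      rw [hvw]
      exact hxi v)
  obtain ⟨-, -, I, J, hJ8, hJn, hI, hsa, hlt⟩ := fin_params (Module.finrank ℚ K) hd1 ℓ q (lN p) hℓ
    hq hlp hp a s (N / h) N hs ha1 ha2 (Nat.div_le_self N h) hnum.hN (hnum.hn h hh1 hhH)
  have hm := main_fin (N / h) I J hJ8 hJn hI ({p} : Finset (HeightOneSpectrum (𝓞 K)))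
    (fun _ => s) (fun _ _ => hs1) u (x / y)⁻¹ hu (inv_ne_zero hw) (fun i hi _ => hroot i hi)
    (by
      intro P hPp
      have e : (x / y)⁻¹ = y / x := by rw [inv_div]
      rw [e]
      refine hcl2 y x hy0 hx0 ?_ ?_ P hPp
      · intro Q hQ
        rw [Finset.mem_singleton] at hQ
        rw [hQ]
        exact (hxs p hps).symm
      · have := congrArg Prod.fst hxy
        simp only at this
        exact_mod_cast this.symm)
    (by
      intro P hPp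
      rw [Finset.mem_singleton] at hPp
      rw [hPp]
      have e : u - 1 = -(1 - u) := by ring
      rw [e, av_neg, ← Real.log_le_iff_le_exp (av_pos p hu1), log_av hu1, ha]
      have h1 : ((s * (I * J) : ℕ) : ℝ) ≤ (a : ℝ) := by exact_mod_cast hsa
      have h2 := mul_le_mul_of_nonneg_right h1 hlp.le
      push_cast at h2 ⊢
      linarith)
  rw [Finset.sum_singleton] at hm
  have hI0 : (0 : ℝ) ≤ I := Nat.cast_nonneg _
  have hJ0 : (0 : ℝ) ≤ J := Nat.cast_nonneg _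
  have h1 := mul_le_mul_of_nonneg_left hw2 hI0
  have h2 := mul_le_mul_of_nonneg_left hw1 hJ0
  linarith

end AbcRadK
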