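import Pool.Agent.Work.MP_a793bb_nt.RadK.SuppK
import Pool.Agent.Work.MP_a793bb_nt.RadK.HtEq

/-!
# Heights of an approximate root

Proof. Let `e_p = kp p u`, `f_p = kp p w`, `H = logHeight₁ u`, `d` the degree. From
`|h e_p - N f_p| ≤ κ N`: `|f_p| ≤ (h / N) |e_p| + κ`, and `h / N ≤ 1 / n` because `n h ≤ N`; `f_p = 0`
outside `supp u`. So `∑_{p ∈ supp u} |f_p| lN p ≤ 2 H / n + κ ℓ` (`sum_kp_le`). In the same way
`|log (v w)| ≤ |log (v u)| / n + κ` and `∑_v mult |log (v w)| ≤ 2 H / n + κ d` (`sum_inf_le`,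
`∑_v mult = d`, `InfinitePlace.sum_mult_eq`). The first claim follows from `ht_le` for `w⁻¹` with
`T = supp u`. Second claim: `N / h = n + r` with `0 ≤ r < 1` (real quotient on the left), so
`N / h ≤ 2 n`, and `kp p (u * w⁻¹ ^ n) = e_p - n f_p = (e_p - (N / h) f_p) + r f_p`, so
`|e_p - n f_p| ≤ κ N / h + |f_p| ≤ 2 κ n + |f_p|`; similarly
`|log (v (u * w⁻¹ ^ n))| ≤ 2 κ n + |log (v w)|`; it is zero outside `supp u`. Use `ht_le` with
`T = supp u`. (`n ≥ 1` because `h ≤ N`.)
-/

set_option autoImplicit false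

namespace AbcRadK

open Finset AbcRad Pool.Agent.Work.MP_a793bb_nt Pool.Agent.Work.MP_a793bb_nt.BPlus NumberField
  IsDedekindDomain Height

variable {K : Type*} [Field K] [NumberField K]

private theorem eh_step {N h n κ e f : ℝ} (hn1 : 1 ≤ n) (hh : 1 ≤ h) (hN : n * h ≤ N)
    (hN2 : N ≤ 2 * n * h) (hN3 : N - n * h ≤ h) (hκ : 0 < κ) (H : |h * e - N * f| ≤ κ * N) :
    |f| ≤ |e| / n + κ ∧ |e - n * f| ≤ 2 * κ * n + |f| := by
  have h0 : 0 < h := by linarith
  have n0 : 0 < n := by linarith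
  have N0 : 0 < N := lt_of_lt_of_le (mul_pos n0 h0) hN
  constructor
  · have h1 : N * |f| ≤ h * |e| + κ * N := by
      have h2 : |N * f| ≤ |h * e| + |h * e - N * f| := by
        have h3 : N * f = h * e - (h * e - N * f) := by ring
        rw [h3]
        exact abs_sub _ _ |>.trans (by rw [← h3])
      rw [abs_mul, abs_mul, abs_of_pos N0, abs_of_pos h0] at h2
      linarith
    have h4 : h * |e| ≤ N * (|e| / n) := by
      rw [mul_div_assoc', le_div_iff₀ n0]
      have := mul_le_mul_of_nonneg_right hN (abs_nonneg e)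
      nlinarith
    have h5 : N * |f| ≤ N * (|e| / n + κ) := by
      rw [mul_add]
      linarith
    exact le_of_mul_le_mul_left h5 N0
  · have h1 : h * |e - n * f| ≤ h * (2 * κ * n + |f|) := by
      have h2 : h * (e - n * f) = (h * e - N * f) + (N - n * h) * f := by ring
      have h3 : |h * (e - n * f)| ≤ |h * e - N * f| + |(N - n * h) * f| := by
        rw [h2]
        exact abs_add_le _ _
      rw [abs_mul, abs_mul, abs_of_pos h0, abs_of_nonneg (by linarith : 0 ≤ N - n * h)] at h3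
      have h4 : (N - n * h) * |f| ≤ h * |f| := mul_le_mul_of_nonneg_right hN3 (abs_nonneg f)
      have h5 : κ * N ≤ κ * (2 * n * h) := mul_le_mul_of_nonneg_left hN2 hκ.le
      nlinarith
    exact le_of_mul_le_mul_left h1 h0

theorem eff_heights (u w : K) (hu : u ≠ 0) (hw : w ≠ 0) (N h n : ℕ) (κ ℓ : ℝ) (hκ : 0 < κ)
    (hℓ : 0 ≤ ℓ) (hh1 : 1 ≤ h) (hhN : h ≤ N) (hn : n = N / h) (hr : lsum (supp u) ≤ ℓ)
    (hsupp : ∀ p, p ∉ supp u → kp p w = 0)
    (hfin : ∀ p, |(h : ℝ) * (kp p u : ℝ) - N * (kp p w : ℝ)| ≤ κ * N)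
    (hinf : ∀ v : InfinitePlace K, |(h : ℝ) * Real.log (v u) - N * Real.log (v w)| ≤ κ * N) :
    logHeight₁ w⁻¹ ≤ 4 * logHeight₁ u / n + κ * (ℓ + (Module.finrank ℚ K : ℝ)) ∧
      logHeight₁ (u * w⁻¹ ^ n) ≤ 2 * κ * n * (ℓ + (Module.finrank ℚ K : ℝ)) +
        4 * logHeight₁ u / n + κ * (ℓ + (Module.finrank ℚ K : ℝ)) := by
  have hn1 : 1 ≤ n := by
    rw [hn]
    exact Nat.div_pos hhN (by omega)
  have a1 : (1 : ℝ) ≤ n := by exact_mod_cast hn1
  have a2 : (1 : ℝ) ≤ h := by exact_mod_cast hh1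
  have b1 : n * h ≤ N := by
    rw [hn]
    exact Nat.div_mul_le_self N h
  have b2 : N < n * h + h := by
    rw [hn]
    have := Nat.lt_div_mul_add (a := N) (b := h) (by omega)
    exact this
  have a3 : (n : ℝ) * h ≤ N := by exact_mod_cast b1
  have a4 : (N : ℝ) < n * h + h := by exact_mod_cast b2
  have a5 : (N : ℝ) - n * h ≤ h := by linarith
  have a6 : (N : ℝ) ≤ 2 * n * h := by nlinarith
  have stf := fun p => eh_step a1 a2 a3 a6 a5 hκ (hfin p)
  have sti := fun v => eh_step a1 a2 a3 a6 a5 hκ (hinf v)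
  have n0 : (0 : ℝ) < n := by linarith
  have hmult : ∑ v : InfinitePlace K, (v.mult : ℝ) = (Module.finrank ℚ K : ℝ) := by
    rw [← InfinitePlace.sum_mult_eq]
    push_cast
    rfl
  have hS := sum_kp_le u hu (supp u)
  have hI := sum_inf_le u hu
  have hSw : ∑ p ∈ supp u, |(kp p w : ℝ)| * lN p ≤ 2 * logHeight₁ u / n + κ * ℓ := by
    calc ∑ p ∈ supp u, |(kp p w : ℝ)| * lN p
        ≤ ∑ p ∈ supp u, (|(kp p u : ℝ)| * lN p / n + κ * lN p) := by
          refine Finset.sum_le_sum fun p _ => ?_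
          have := mul_le_mul_of_nonneg_right (stf p).1 (lN_pos p).le
          refine this.trans (le_of_eq ?_)
          ring
      _ = (∑ p ∈ supp u, |(kp p u : ℝ)| * lN p) / n + κ * lsum (supp u) := by
          rw [Finset.sum_add_distrib, Finset.sum_div, lsum, Finset.mul_sum]
      _ ≤ 2 * logHeight₁ u / n + κ * ℓ :=
          add_le_add (div_le_div_of_nonneg_right hS n0.le) (mul_le_mul_of_nonneg_left hr hκ.le)
  have hIw : ∑ v : InfinitePlace K, (v.mult : ℝ) * |Real.log (v w)| ≤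
      2 * logHeight₁ u / n + κ * (Module.finrank ℚ K : ℝ) := by
    calc ∑ v : InfinitePlace K, (v.mult : ℝ) * |Real.log (v w)|
        ≤ ∑ v : InfinitePlace K, ((v.mult : ℝ) * |Real.log (v u)| / n + κ * v.mult) := by
          refine Finset.sum_le_sum fun v _ => ?_
          have := mul_le_mul_of_nonneg_left (sti v).1 (Nat.cast_nonneg (α := ℝ) v.mult)
          refine this.trans (le_of_eq ?_)
          ring
      _ = (∑ v : InfinitePlace K, (v.mult : ℝ) * |Real.log (v u)|) / n +
            κ * (Module.finrank ℚ K : ℝ) := by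
          rw [Finset.sum_add_distrib, Finset.sum_div, ← hmult, Finset.mul_sum]
      _ ≤ _ := add_le_add (div_le_div_of_nonneg_right hI n0.le) le_rfl
  have e4 : 4 * logHeight₁ u / n = 2 * logHeight₁ u / n + 2 * logHeight₁ u / n := by ring
  have hwi : (w⁻¹ : K) ≠ 0 := inv_ne_zero hw
  constructor
  · have h1 := ht_le (w⁻¹) hwi (supp u) (by
      intro p hp
      by_contra hps
      apply hp
      rw [Pool.Agent.Work.MP_a793bb_nt.kp_inv p hw, hsupp p hps, neg_zero])
    have e1 : ∀ p, |(kp p w⁻¹ : ℝ)| = |(kp p w : ℝ)| := by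
      intro p
      rw [Pool.Agent.Work.MP_a793bb_nt.kp_inv p hw]
      push_cast
      exact abs_neg _
    have e2 : ∀ v : InfinitePlace K, |Real.log (v w⁻¹)| = |Real.log (v w)| := by
      intro v
      rw [map_inv₀, Real.log_inv, abs_neg]
    simp only [e1, e2] at h1
    rw [e4]
    linarith
  · have hx : u * w⁻¹ ^ n ≠ 0 := mul_ne_zero hu (pow_ne_zero n hwi)
    have ek : ∀ p, kp p (u * w⁻¹ ^ n) = kp p u - n * kp p w := by
      intro p
      rw [kp_mul p hu (pow_ne_zero n hwi), kp_pow p hwi, Pool.Agent.Work.MP_a793bb_nt.kp_inv p hw]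
      ring
    have h1 := ht_le (u * w⁻¹ ^ n) hx (supp u) (by
      intro p hp
      by_contra hps
      apply hp
      have h2 : kp p u = 0 := by
        by_contra h3
        exact hps ((mem_supp hu p).2 h3)
      rw [ek, hsupp p hps, h2]
      ring)
    have ev : ∀ v : InfinitePlace K, Real.log (v (u * w⁻¹ ^ n)) =
        Real.log (v u) - n * Real.log (v w) := by
      intro v
      have hvu : v u ≠ 0 := (InfinitePlace.pos_iff.2 hu).ne'
      have hvw : v w ≠ 0 := (InfinitePlace.pos_iff.2 hw).ne'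
      rw [map_mul, map_pow, map_inv₀, Real.log_mul hvu (pow_ne_zero _ (inv_ne_zero hvw)),
        Real.log_pow, Real.log_inv]
      ring
    have s1 : ∑ v : InfinitePlace K, (v.mult : ℝ) * |Real.log (v (u * w⁻¹ ^ n))| ≤
        2 * κ * n * (Module.finrank ℚ K : ℝ) +
          ∑ v : InfinitePlace K, (v.mult : ℝ) * |Real.log (v w)| := by
      rw [← hmult, Finset.mul_sum, ← Finset.sum_add_distrib]
      refine Finset.sum_le_sum fun v _ => ?_
      rw [ev]
      have := mul_le_mul_of_nonneg_left (sti v).2 (Nat.cast_nonneg (α := ℝ) v.mult)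
      refine this.trans (le_of_eq ?_)
      ring
    have s2 : ∑ p ∈ supp u, |(kp p (u * w⁻¹ ^ n) : ℝ)| * lN p ≤
        2 * κ * n * ℓ + ∑ p ∈ supp u, |(kp p w : ℝ)| * lN p := by
      calc ∑ p ∈ supp u, |(kp p (u * w⁻¹ ^ n) : ℝ)| * lN p
          ≤ ∑ p ∈ supp u, (2 * κ * n * lN p + |(kp p w : ℝ)| * lN p) := by
            refine Finset.sum_le_sum fun p _ => ?_
            rw [ek]
            push_cast
            have := mul_le_mul_of_nonneg_right (stf p).2 (lN_pos p).le
            refine this.trans (le_of_eq ?_)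
            ring
        _ = 2 * κ * n * lsum (supp u) + ∑ p ∈ supp u, |(kp p w : ℝ)| * lN p := by
            rw [Finset.sum_add_distrib, lsum, Finset.mul_sum]
        _ ≤ _ := by
            have : 2 * κ * n * lsum (supp u) ≤ 2 * κ * n * ℓ :=
              mul_le_mul_of_nonneg_left hr (by positivity)
            linarith
    rw [e4]
    linarith

end AbcRadK
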